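import Pool.Agent.Y230.PL.Wt
import Pool.Agent.W574.SM.NodeCurve

set_option autoImplicit false
set_option linter.unusedSectionVars false
set_option linter.unusedVariables false

/-! # Smooth curves through the origin -/

namespace Pool.Agent.Y230.PL

open MeasureTheory Set Pool.Agent.W574.SM Metric

/-- bounds for the function `F(x, ·)` -/
def CurveData (F : ℂ → ℂ → ℂ) : Prop :=
  (∃ ε > 0, ∃ L > 0, ∃ U : ℝ, 1 ≤ U ∧ ∀ x ∈ ball (0 : ℂ) ε, ∀ y ∈ ball (0 : ℂ) ε,
    ∀ y' ∈ ball (0 : ℂ) ε, L * ‖y - y'‖ ≤ ‖F x y - F x y'‖ ∧ ‖F x y - F x y'‖ ≤ U * ‖y - y'‖) ∧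
  (∀ η > 0, ∃ δ > 0, ∀ x ∈ ball (0 : ℂ) δ, ∃ y0 ∈ ball (0 : ℂ) η, F x y0 = 0) ∧
  Continuous fun p : ℂ × ℂ => F p.1 p.2

theorem continuous_dL (h : MP) : Continuous fun p : Fin 2 → ℂ => AR.dL h p := by
  unfold AR.dL
  refine continuous_finsetSum _ fun i _ => ?_
  exact ((ContinuousLinearMap.mul ℝ ℂ).continuous.comp (AR.continuous_ev _)).clm_comp
    continuous_const

theorem strict_eval (h : MP) (p : Fin 2 → ℂ) :
    HasStrictFDerivAt (fun p : Fin 2 → ℂ => MvPolynomial.eval p h) (AR.dL h p) p :=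
  hasStrictFDerivAt_of_hasFDerivAt_of_continuousAt
    (Filter.Eventually.of_forall fun q => AR.hasFDerivAt_eval h q) (continuous_dL h).continuousAt

theorem vec_norm (a b : ℂ) : ‖(![a, b] : Fin 2 → ℂ)‖ = max ‖a‖ ‖b‖ := by
  rw [Pi.norm_def]
  apply le_antisymm
  · have h1 : (Finset.univ.sup fun i : Fin 2 => ‖(![a, b] : Fin 2 → ℂ) i‖₊) ≤ max ‖a‖₊ ‖b‖₊ := by
      refine Finset.sup_le fun i _ => ?_
      fin_cases i
      · exact le_max_left _ _
      · exact le_max_right _ _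
    have h2 : ((max ‖a‖₊ ‖b‖₊ : NNReal) : ℝ) = max ‖a‖ ‖b‖ := by simp
    rw [← h2]
    exact_mod_cast h1
  · refine max_le ?_ ?_
    · have := Finset.le_sup (f := fun i : Fin 2 => ‖(![a, b] : Fin 2 → ℂ) i‖₊) (Finset.mem_univ 0)
      exact_mod_cast this
    · have := Finset.le_sup (f := fun i : Fin 2 => ‖(![a, b] : Fin 2 → ℂ) i‖₊) (Finset.mem_univ 1)
      exact_mod_cast this

theorem curveData (h : MP) (h0 : MvPolynomial.constantCoeff h = 0)
    (h1 : MvPolynomial.constantCoeff (MvPolynomial.pderiv 1 h) ≠ 0) :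
    CurveData fun x y => MvPolynomial.eval ![x, y] h := by
  set B : ℂ := MvPolynomial.constantCoeff (MvPolynomial.pderiv 1 h) with hB
  have hBp : 0 < ‖B‖ := norm_pos_iff.2 h1
  have hB' : MvPolynomial.eval (0 : Fin 2 → ℂ) (MvPolynomial.pderiv 1 h) = B := by
    rw [MvPolynomial.eval_zero]
  have hd : ∀ v : Fin 2 → ℂ, AR.dL h 0 v =
      MvPolynomial.eval 0 (MvPolynomial.pderiv 0 h) * v 0 + B * v 1 := by
    intro v
    rw [AR.dL_apply, Fin.sum_univ_two, hB']
  refine ⟨?_, ?_, continuous_ev2 h⟩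
  · have hs := (strict_eval h 0).isLittleO
    have hc := hs.def (c := ‖B‖ / 2) (by positivity)
    obtain ⟨ε, hε, hb⟩ := Metric.eventually_nhds_iff_ball.1 hc
    refine ⟨ε, hε, ‖B‖ / 2, by positivity, 3 / 2 * ‖B‖ + 1, by linarith, fun x hx y hy y' hy' => ?_⟩
    rw [mem_ball_zero_iff] at hx hy hy'
    have h2 := hb (![x, y], ![x, y']) (by
      rw [← ball_prod_same]
      constructor
      · rw [mem_ball_zero_iff, vec_norm]; exact max_lt hx hy
      · rw [mem_ball_zero_iff, vec_norm]; exact max_lt hx hy')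
    simp only at h2
    have h3 : (![x, y] : Fin 2 → ℂ) - ![x, y'] = ![0, y - y'] := by
      funext i; fin_cases i <;> simp
    rw [h3, hd] at h2
    have h4 : (![0, y - y'] : Fin 2 → ℂ) 0 = 0 := rfl
    have h5 : (![0, y - y'] : Fin 2 → ℂ) 1 = y - y' := rfl
    rw [h4, h5, mul_zero, zero_add, vec_norm, norm_zero, max_eq_right (norm_nonneg _)] at h2
    set D := MvPolynomial.eval ![x, y] h - MvPolynomial.eval ![x, y'] h with hD
    have h6 : ‖B * (y - y')‖ = ‖B‖ * ‖y - y'‖ := norm_mul _ _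
    constructor
    · have h7 : ‖B * (y - y')‖ ≤ ‖D - B * (y - y')‖ + ‖D‖ := by
        have := norm_sub_le (D) (D - B * (y - y'))
        rw [sub_sub_cancel] at this
        linarith
      rw [h6] at h7
      linarith
    · have h7 : ‖D‖ ≤ ‖D - B * (y - y')‖ + ‖B * (y - y')‖ := by
        have := norm_add_le (D - B * (y - y')) (B * (y - y'))
        rw [sub_add_cancel] at this
        linarith
      rw [h6] at h7
      have := norm_nonneg (y - y')
      linarith
  · intro η hη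
    set Ψ : (Fin 2 → ℂ) → (Fin 2 → ℂ) := fun p => ![p 0, MvPolynomial.eval p h] with hΨ
    set Ψ' : (Fin 2 → ℂ) →L[ℝ] (Fin 2 → ℂ) := ContinuousLinearMap.pi
      ![ContinuousLinearMap.proj (R := ℝ) (φ := fun _ : Fin 2 => ℂ) 0, AR.dL h 0] with hΨ'
    have hstr : HasStrictFDerivAt Ψ Ψ' 0 := by
      rw [hasStrictFDerivAt_pi']
      intro i
      fin_cases i
      · exact (ContinuousLinearMap.proj (R := ℝ) (φ := fun _ : Fin 2 => ℂ) 0).hasStrictFDerivAt
      · exact strict_eval h 0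
    have hsurj : Ψ'.range = ⊤ := by
      rw [LinearMap.range_eq_top]
      intro w
      refine ⟨![w 0, (w 1 - MvPolynomial.eval 0 (MvPolynomial.pderiv 0 h) * w 0) / B], ?_⟩
      funext i
      fin_cases i
      · rfl
      · change AR.dL h 0 _ = w 1
        rw [hd]
        simp only [Matrix.cons_val_zero, Matrix.cons_val_one]
        field_simp
        ring
    have hmap := hstr.map_nhds_eq_of_surj hsurj
    have hΨ0 : Ψ 0 = 0 := by
      funext i
      fin_cases i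
      · rfl
      · change MvPolynomial.eval 0 h = 0
        rw [MvPolynomial.eval_zero, h0]
    rw [hΨ0] at hmap
    have hU : Ψ '' ball 0 η ∈ nhds (0 : Fin 2 → ℂ) := by
      rw [← hmap]
      exact Filter.image_mem_map (ball_mem_nhds 0 hη)
    obtain ⟨δ, hδ, hsub⟩ := Metric.mem_nhds_iff.1 hU
    refine ⟨δ, hδ, fun x hx => ?_⟩
    rw [mem_ball_zero_iff] at hx
    obtain ⟨p, hp, hpx⟩ := hsub (show (![x, 0] : Fin 2 → ℂ) ∈ ball 0 δ by
      rw [mem_ball_zero_iff, vec_norm, norm_zero, max_eq_left (norm_nonneg x)]; exact hx)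
    rw [mem_ball_zero_iff] at hp
    have e0 : p 0 = x := congrFun hpx 0
    have e1 : MvPolynomial.eval p h = 0 := congrFun hpx 1
    refine ⟨p 1, ?_, ?_⟩
    · rw [mem_ball_zero_iff]
      exact lt_of_le_of_lt (norm_le_pi_norm p 1) hp
    · have e2 : (![x, p 1] : Fin 2 → ℂ) = p := by
        funext i; fin_cases i
        · exact e0.symm
        · rfl
      simp only
      rw [e2]
      exact e1

theorem curveData' (h : MP) (h0 : MvPolynomial.constantCoeff h = 0)
    (h1 : MvPolynomial.constantCoeff (MvPolynomial.pderiv 0 h) ≠ 0) :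
    CurveData fun x y => MvPolynomial.eval ![y, x] h := by
  have h2 : (fun x y : ℂ => MvPolynomial.eval ![y, x] h) =
      fun x y => MvPolynomial.eval ![x, y] (sw h) := by
    funext x y
    rw [eval_sw]
  rw [h2]
  refine curveData (sw h) (by rw [cc_sw, h0]) ?_
  rw [(pderiv_sw h).2, cc_sw]
  exact h1

/-- the upper bound -/
theorem curve_up (F : ℂ → ℂ → ℂ) (hF : CurveData F) : ∃ ε > 0, ∀ α : ℝ, 0 < α → α < 1 →
    ∃ D : ENNReal, D < ⊤ ∧ ∀ x ∈ ball (0 : ℂ) ε,
      ∫⁻ y in ball (0 : ℂ) ε, ENNReal.ofReal ‖F x y‖ ^ (2 * (α - 1)) ≤ D := by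
  obtain ⟨⟨ε, hε, L, hL, U, hU, hb⟩, -, hc⟩ := hF
  refine ⟨ε / 2, by positivity, fun α hα hα1 => ?_⟩
  refine ⟨ENNReal.ofReal (L / 2) ^ (2 * (α - 1)) *
    ENNReal.ofReal (Real.pi * (ε ^ (2 * α) / α)), ?_, fun x hx => ?_⟩
  · refine ENNReal.mul_lt_top ?_ ENNReal.ofReal_lt_top
    exact (ENNReal.rpow_ne_top_of_nonneg' (ENNReal.ofReal_pos.2 (by positivity))
      ENNReal.ofReal_ne_top).lt_top
  rw [mem_ball_zero_iff] at hx
  have hxε : x ∈ ball (0 : ℂ) ε := by rw [mem_ball_zero_iff]; linarith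
  -- the minimum of `|F(x, ·)|`
  obtain ⟨y0, hy0, hmin⟩ := (isCompact_closedBall (0 : ℂ) (ε / 2)).exists_isMinOn
    ⟨0, mem_closedBall_self (by positivity)⟩
    (f := fun y => ‖F x y‖) (by
      have : Continuous fun y => ‖F x y‖ := (hc.comp (Continuous.prodMk_right x)).norm
      exact this.continuousOn)
  have hy0' : ‖y0‖ ≤ ε / 2 := mem_closedBall_zero_iff.1 hy0
  have hy0ε : y0 ∈ ball (0 : ℂ) ε := by rw [mem_ball_zero_iff]; linarith
  have hlow : ∀ y ∈ ball (0 : ℂ) (ε / 2), L / 2 * ‖y - y0‖ ≤ ‖F x y‖ := by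
    intro y hy
    rw [mem_ball_zero_iff] at hy
    have h1 := (hb x hxε y (by rw [mem_ball_zero_iff]; linarith) y0 hy0ε).1
    have h2 : ‖F x y0‖ ≤ ‖F x y‖ := hmin (mem_closedBall_zero_iff.2 hy.le)
    have h3 := norm_sub_le (F x y) (F x y0)
    linarith
  calc ∫⁻ y in ball (0 : ℂ) (ε / 2), ENNReal.ofReal ‖F x y‖ ^ (2 * (α - 1))
      ≤ ∫⁻ y in ball (0 : ℂ) (ε / 2), ENNReal.ofReal (L / 2) ^ (2 * (α - 1)) *
          ENNReal.ofReal ‖y - y0‖ ^ (2 * (α - 1)) := by
        refine setLIntegral_mono' measurableSet_ball fun y hy => ?_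
        rw [← ENNReal.mul_rpow_of_ne_top ENNReal.ofReal_ne_top ENNReal.ofReal_ne_top,
          ← ENNReal.ofReal_mul (by positivity)]
        have h1 : 2 * (α - 1) ≤ 0 := by linarith
        have h2 := ENNReal.ofReal_le_ofReal (hlow y hy)
        have h3 : ENNReal.ofReal (L / 2 * ‖y - y0‖) ^ (-(2 * (α - 1))) ≤
            ENNReal.ofReal ‖F x y‖ ^ (-(2 * (α - 1))) := ENNReal.rpow_le_rpow h2 (by linarith)
        rw [ENNReal.rpow_neg, ENNReal.rpow_neg] at h3
        exact ENNReal.inv_le_inv.1 h3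
    _ = ENNReal.ofReal (L / 2) ^ (2 * (α - 1)) *
          ∫⁻ y in ball (0 : ℂ) (ε / 2), ENNReal.ofReal ‖y - y0‖ ^ (2 * (α - 1)) :=
        lintegral_const_mul _ (by fun_prop)
    _ ≤ ENNReal.ofReal (L / 2) ^ (2 * (α - 1)) *
          ∫⁻ y in ball y0 ε, ENNReal.ofReal ‖y - y0‖ ^ (2 * (α - 1)) := by
        refine mul_le_mul_right (lintegral_mono_set fun y hy => ?_) _
        rw [mem_ball_zero_iff] at hy
        rw [mem_ball, dist_eq_norm]
        have := norm_sub_le y y0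
        linarith
    _ = _ := by
        rw [translate_ball]
        simp only [add_sub_cancel_left]
        rw [disc_int ε α hε hα]

/-- the lower bound -/
theorem curve_lo (F : ℂ → ℂ → ℂ) (hF : CurveData F) : ∀ ε > 0, ∃ δ > 0, ∃ C > 0,
    ∀ x ∈ ball (0 : ℂ) δ, ∀ α : ℝ, 0 < α → α < 1 →
      ENNReal.ofReal (C / α) ≤ ∫⁻ y in ball (0 : ℂ) ε, ENNReal.ofReal ‖F x y‖ ^ (2 * (α - 1)) := by
  obtain ⟨⟨ε1, hε1, L, hL, U, hU, hb⟩, hz, hc⟩ := hF
  intro ε hε
  set r : ℝ := min (min ε ε1) 1 / 2 with hr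
  have hr0 : 0 < r := by
    rw [hr]; exact div_pos (lt_min (lt_min hε hε1) one_pos) two_pos
  have hrε : 2 * r ≤ ε := by
    rw [hr]; have := min_le_left (min ε ε1) 1; have := min_le_left ε ε1; linarith
  have hrε1 : 2 * r ≤ ε1 := by
    rw [hr]; have := min_le_left (min ε ε1) 1; have := min_le_right ε ε1; linarith
  have hr1 : r ≤ 1 := by
    rw [hr]; have := min_le_right (min ε ε1) 1; linarith
  obtain ⟨δ1, hδ1, hzero⟩ := hz r hr0
  refine ⟨min δ1 ε1, lt_min hδ1 hε1, U ^ (-2 : ℝ) * (Real.pi * r ^ (2 : ℝ)), by positivity,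
    fun x hx α hα hα1 => ?_⟩
  rw [mem_ball_zero_iff, lt_min_iff] at hx
  obtain ⟨y0, hy0, hFy0⟩ := hzero x (by rw [mem_ball_zero_iff]; exact hx.1)
  rw [mem_ball_zero_iff] at hy0
  have hxε : x ∈ ball (0 : ℂ) ε1 := by rw [mem_ball_zero_iff]; exact hx.2
  have hup : ∀ y ∈ ball y0 r, ‖F x y‖ ≤ U * ‖y - y0‖ := by
    intro y hy
    rw [mem_ball, dist_eq_norm] at hy
    have h1 : ‖y‖ < 2 * r := by
      have := norm_add_le (y - y0) y0
      rw [sub_add_cancel] at this
      linarith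
    have h2 := (hb x hxε y (by rw [mem_ball_zero_iff]; linarith) y0
      (by rw [mem_ball_zero_iff]; linarith)).2
    rwa [hFy0, sub_zero] at h2
  have hUp : 0 < U := by linarith
  calc ENNReal.ofReal (U ^ (-2 : ℝ) * (Real.pi * r ^ (2 : ℝ)) / α)
      ≤ ENNReal.ofReal U ^ (2 * (α - 1)) * ENNReal.ofReal (Real.pi * (r ^ (2 * α) / α)) := by
        rw [ENNReal.ofReal_rpow_of_pos hUp, ← ENNReal.ofReal_mul (by positivity)]
        refine ENNReal.ofReal_le_ofReal ?_
        have h1 : U ^ (-2 : ℝ) ≤ U ^ (2 * (α - 1)) :=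
          Real.rpow_le_rpow_of_exponent_le hU (by linarith)
        have h2 : r ^ (2 : ℝ) ≤ r ^ (2 * α) :=
          Real.rpow_le_rpow_of_exponent_ge hr0 hr1 (by linarith)
        calc _ = U ^ (-2 : ℝ) * (Real.pi * (r ^ (2 : ℝ) / α)) := by ring
          _ ≤ _ := by gcongr
    _ = ENNReal.ofReal U ^ (2 * (α - 1)) *
          ∫⁻ v in ball (0 : ℂ) r, ENNReal.ofReal ‖v‖ ^ (2 * (α - 1)) := by
        rw [disc_int r α hr0 hα]
    _ = ∫⁻ y in ball y0 r, ENNReal.ofReal U ^ (2 * (α - 1)) *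
          ENNReal.ofReal ‖y - y0‖ ^ (2 * (α - 1)) := by
        rw [lintegral_const_mul _ (by fun_prop), translate_ball y0]
        simp only [add_sub_cancel_left]
    _ ≤ ∫⁻ y in ball y0 r, ENNReal.ofReal ‖F x y‖ ^ (2 * (α - 1)) := by
        refine setLIntegral_mono' measurableSet_ball fun y hy => ?_
        rw [← ENNReal.mul_rpow_of_ne_top ENNReal.ofReal_ne_top ENNReal.ofReal_ne_top,
          ← ENNReal.ofReal_mul (by positivity)]
        have h2 := ENNReal.ofReal_le_ofReal (hup y hy)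
        have h3 : ENNReal.ofReal ‖F x y‖ ^ (-(2 * (α - 1))) ≤
            ENNReal.ofReal (U * ‖y - y0‖) ^ (-(2 * (α - 1))) := ENNReal.rpow_le_rpow h2 (by linarith)
        rw [ENNReal.rpow_neg, ENNReal.rpow_neg] at h3
        exact ENNReal.inv_le_inv.1 h3
    _ ≤ _ := by
        refine lintegral_mono_set fun y hy => ?_
        rw [mem_ball, dist_eq_norm] at hy
        rw [mem_ball_zero_iff]
        have := norm_add_le (y - y0) y0
        rw [sub_add_cancel] at this
        linarith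

end Pool.Agent.Y230.PL
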