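import Mathlib

set_option autoImplicit false
set_option linter.unusedSectionVars false
set_option linter.unusedVariables false

/-! # Integrals of powers over discs -/

namespace Pool.Agent.Y230.PL

open MeasureTheory Set

theorem radial_int (r β : ℝ) (hr : 0 < r) (hβ : 0 < β) :
    ∫⁻ ρ in Ioo 0 r, ENNReal.ofReal (ρ ^ (β - 1)) = ENNReal.ofReal (r ^ β / β) := by
  have h1 : IntervalIntegrable (fun ρ : ℝ => ρ ^ (β - 1)) volume 0 r :=
    intervalIntegral.intervalIntegrable_rpow' (by linarith)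
  have h2 : IntegrableOn (fun ρ : ℝ => ρ ^ (β - 1)) (Ioo 0 r) :=
    ((intervalIntegrable_iff_integrableOn_Ioc_of_le hr.le).1 h1).mono_set Ioo_subset_Ioc_self
  rw [← ofReal_integral_eq_lintegral_ofReal h2]
  · congr 1
    rw [← integral_Ioc_eq_integral_Ioo, ← intervalIntegral.integral_of_le hr.le,
      integral_rpow (Or.inl (by linarith)), sub_add_cancel, Real.zero_rpow hβ.ne', sub_zero]
  · filter_upwards [ae_restrict_mem measurableSet_Ioo] with ρ hρ
    exact Real.rpow_nonneg hρ.1.le _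

/-- the integral of a power over a disc -/
theorem disc_int (r α : ℝ) (hr : 0 < r) (hα : 0 < α) :
    ∫⁻ z in Metric.ball (0 : ℂ) r, ENNReal.ofReal ‖z‖ ^ (2 * (α - 1)) =
      ENNReal.ofReal (Real.pi * (r ^ (2 * α) / α)) := by
  rw [← lintegral_indicator Metric.isOpen_ball.measurableSet,
    ← Complex.lintegral_comp_polarCoord_symm]
  have h1 : polarCoord.target = Ioi (0 : ℝ) ×ˢ Ioo (-Real.pi) Real.pi := rfl
  rw [h1, Measure.volume_eq_prod, ← Measure.prod_restrict]
  have hae : ∀ᵐ p : ℝ × ℝ ∂((volume.restrict (Ioi (0 : ℝ))).prod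
      (volume.restrict (Ioo (-Real.pi) Real.pi))),
      ENNReal.ofReal p.1 • (Metric.ball (0 : ℂ) r).indicator
        (fun z => ENNReal.ofReal ‖z‖ ^ (2 * (α - 1))) (Complex.polarCoord.symm p) =
      (Iio r).indicator (fun ρ => ENNReal.ofReal (ρ ^ (2 * α - 1))) p.1 := by
    rw [Measure.prod_restrict]
    filter_upwards [ae_restrict_mem (measurableSet_Ioi.prod measurableSet_Ioo)] with p hp
    have hp0 : 0 < p.1 := hp.1
    have hn : ‖Complex.polarCoord.symm p‖ = p.1 := by
      rw [Complex.norm_polarCoord_symm, abs_of_pos hp0]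
    by_cases hlt : p.1 < r
    · rw [indicator_of_mem (by rw [mem_ball_zero_iff, hn]; exact hlt),
        indicator_of_mem (show p.1 ∈ Iio r from hlt), hn, ENNReal.ofReal_rpow_of_pos hp0,
        smul_eq_mul, ← ENNReal.ofReal_mul hp0.le]
      congr 1
      have h2 : 2 * α - 1 = 1 + 2 * (α - 1) := by ring
      rw [h2, Real.rpow_add hp0, Real.rpow_one]
    · rw [indicator_of_notMem (by rw [mem_ball_zero_iff, hn]; exact hlt),
        indicator_of_notMem (show p.1 ∉ Iio r from hlt), smul_zero]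
  rw [lintegral_congr_ae hae]
  have hm : Measurable fun p : ℝ × ℝ =>
      (Iio r).indicator (fun ρ => ENNReal.ofReal (ρ ^ (2 * α - 1))) p.1 := by
    refine Measurable.comp (g := (Iio r).indicator (fun ρ : ℝ => ENNReal.ofReal (ρ ^ (2 * α - 1))))
      ?_ measurable_fst
    exact Measurable.indicator (by fun_prop) measurableSet_Iio
  rw [lintegral_prod _ hm.aemeasurable]
  simp only [lintegral_const, Measure.restrict_apply MeasurableSet.univ, univ_inter,
    Real.volume_Ioo]
  have hm2 : Measurable ((Iio r).indicator (fun ρ : ℝ => ENNReal.ofReal (ρ ^ (2 * α - 1)))) :=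
    Measurable.indicator (by fun_prop) measurableSet_Iio
  rw [lintegral_mul_const _ hm2, lintegral_indicator measurableSet_Iio,
    Measure.restrict_restrict measurableSet_Iio]
  have h3 : Iio r ∩ Ioi 0 = Ioo 0 r := by
    ext x; simp [and_comm]
  rw [h3]
  have h4 := radial_int r (2 * α) hr (by positivity)
  rw [h4, ← ENNReal.ofReal_mul (by positivity)]
  congr 1
  field_simp
  ring

/-- scaling -/
theorem scale (x : ℂ) (hx : x ≠ 0) (A : Set ℂ) (hA : MeasurableSet A) (Φ : ℂ → ENNReal) :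
    ∫⁻ y in (fun w => x * w) '' A, Φ y = ENNReal.ofReal (‖x‖ ^ 2) * ∫⁻ w in A, Φ (x * w) := by
  have h1 : ∀ w ∈ A, HasFDerivWithinAt (fun w => x * w) (ContinuousLinearMap.mul ℝ ℂ x) A w :=
    fun w _ => (ContinuousLinearMap.mul ℝ ℂ x).hasFDerivWithinAt
  have h2 : InjOn (fun w => x * w) A := fun a _ b _ h => mul_left_cancel₀ hx h
  rw [lintegral_image_eq_lintegral_abs_det_fderiv_mul volume hA h1 h2]
  have h3 : (ContinuousLinearMap.mul ℝ ℂ x).det = ‖x‖ ^ 2 := by
    have h4 : (ContinuousLinearMap.mul ℝ ℂ x).det = Algebra.norm ℝ x := rfl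
    rw [h4, Algebra.norm_complex_apply, Complex.normSq_eq_norm_sq]
  have h5 : |‖x‖ ^ 2| = ‖x‖ ^ 2 := abs_of_nonneg (by positivity)
  rw [h3, h5, lintegral_const_mul' _ _ ENNReal.ofReal_ne_top]

theorem scale_ball (x : ℂ) (hx : x ≠ 0) (c : ℂ) (r : ℝ) :
    (fun w => x * w) '' (Metric.ball c r) = Metric.ball (x * c) (‖x‖ * r) := by
  ext y
  simp only [mem_image, Metric.mem_ball, dist_eq_norm]
  constructor
  · rintro ⟨w, hw, rfl⟩
    rw [← mul_sub, norm_mul]
    exact mul_lt_mul_of_pos_left hw (norm_pos_iff.2 hx)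
  · intro h
    refine ⟨x⁻¹ * y, ?_, by field_simp⟩
    have h1 : x⁻¹ * y - c = x⁻¹ * (y - x * c) := by field_simp
    rw [h1, norm_mul, norm_inv, inv_mul_lt_iff₀ (norm_pos_iff.2 hx)]
    exact h

theorem scale_closedBall (x : ℂ) (hx : x ≠ 0) (r : ℝ) :
    (fun w => x * w) '' (Metric.closedBall 0 r) = Metric.closedBall 0 (‖x‖ * r) := by
  ext y
  simp only [mem_image, mem_closedBall_zero_iff]
  constructor
  · rintro ⟨w, hw, rfl⟩
    rw [norm_mul]
    exact mul_le_mul_of_nonneg_left hw (norm_nonneg _)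
  · intro h
    refine ⟨x⁻¹ * y, ?_, by field_simp⟩
    rw [norm_mul, norm_inv, inv_mul_le_iff₀ (norm_pos_iff.2 hx)]
    exact h

/-- translation -/
theorem translate_ball (c : ℂ) (r : ℝ) (Φ : ℂ → ENNReal) :
    ∫⁻ y in Metric.ball c r, Φ y = ∫⁻ v in Metric.ball 0 r, Φ (c + v) := by
  rw [← lintegral_indicator Metric.isOpen_ball.measurableSet,
    ← lintegral_indicator Metric.isOpen_ball.measurableSet, ← lintegral_add_left_eq_self _ c]
  refine lintegral_congr fun v => ?_
  simp only [indicator, Metric.mem_ball, dist_eq_norm, add_sub_cancel_left, sub_zero]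

end Pool.Agent.Y230.PL
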