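import Pool.Agent.Y230.PL.UpTree

set_option autoImplicit false
set_option linter.unusedSectionVars false
set_option linter.unusedVariables false

/-! # Lower bounds near the points of the tree -/

namespace Pool.Agent.Y230.PL

open MeasureTheory Set Pool.Agent.W574.SM Metric

variable {ι : Type} [Fintype ι]

/-- the integral has a double pole at `s0` -/
def Lo (s0 : ℝ) (g : ι → MP) (a₀ n₀ a₁ n₁ : ℕ) : Prop :=
  ∀ ε > 0, ∃ Cst > 0, ∀ s : ℝ, s0 < s → s < 0 →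
    ENNReal.ofReal (Cst / (s - s0) ^ 2) ≤
      ∫⁻ x in ball (0 : ℂ) ε, ∫⁻ y in ball (0 : ℂ) ε, W g a₀ n₀ a₁ n₁ s x y

theorem nn_box_up (g : ι → MP) : ∃ M : ℝ, 1 ≤ M ∧ ∃ ε > 0, ∀ x ∈ ball (0 : ℂ) ε,
    ∀ y ∈ ball (0 : ℂ) ε, nn g x y ≤ M := by
  refine ⟨nn g 0 0 + 1, by linarith [nn_nonneg g 0 0], ?_⟩
  have h1 : ∀ᶠ p : ℂ × ℂ in nhds (0, 0), nn g p.1 p.2 < nn g 0 0 + 1 :=
    (continuous_nn g).continuousAt.eventually (gt_mem_nhds (by simp))
  obtain ⟨ε, hε, h2⟩ := exists_box h1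
  exact ⟨ε, hε, fun x hx y hy => (h2 x hx y hy).le⟩

/-- lower bound of the integral over a disc -/
theorem disc_low (r : ℝ) (hr : 0 < r) (hr1 : r ≤ 1) (n a : ℕ) (ha : 0 < a) (s0 s : ℝ)
    (hs : s0 < s) (hs' : s < 0) (hn : (n : ℝ) + a * s0 = 0) :
    ENNReal.ofReal (Real.pi * r ^ (2 * (n : ℝ)) / a / (s - s0)) ≤
      ∫⁻ x in ball (0 : ℂ) r, ENNReal.ofReal ‖x‖ ^ (2 * ((n : ℝ) + a * s - 1)) := by
  have ha' : (0 : ℝ) < a := by exact_mod_cast ha
  have e1 : (n : ℝ) + a * s = a * (s - s0) := by linarith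
  have hp : 0 < (n : ℝ) + a * s := by rw [e1]; exact mul_pos ha' (by linarith)
  rw [disc_int r _ hr hp]
  refine ENNReal.ofReal_le_ofReal ?_
  have h1 : r ^ (2 * (n : ℝ)) ≤ r ^ (2 * ((n : ℝ) + a * s)) := by
    refine Real.rpow_le_rpow_of_exponent_ge hr hr1 ?_
    nlinarith
  have hss : 0 < s - s0 := by linarith
  calc _ = Real.pi * (r ^ (2 * (n : ℝ)) / (a * (s - s0))) := by field_simp
    _ ≤ Real.pi * (r ^ (2 * ((n : ℝ) + a * s)) / (a * (s - s0))) := by gcongr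
    _ = _ := by rw [e1]

theorem exp_low (M s0 s : ℝ) (hM : 1 ≤ M) (hs : s0 < s) :
    ENNReal.ofReal (M ^ s0) ≤ ENNReal.ofReal M ^ s := by
  rw [← ENNReal.ofReal_rpow_of_pos (by linarith)]
  exact ENNReal.rpow_le_rpow_of_exponent_le (by simpa using ENNReal.ofReal_le_ofReal hM) hs.le

theorem lo_unit (s0 : ℝ) (g : ι → MP) (a₀ n₀ a₁ n₁ : ℕ) (ha0 : 0 < a₀) (ha1 : 0 < a₁)
    (h0 : (n₀ : ℝ) + a₀ * s0 = 0) (h1 : (n₁ : ℝ) + a₁ * s0 = 0) : Lo s0 g a₀ n₀ a₁ n₁ := by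
  intro ε hε
  obtain ⟨M, hM, ε1, hε1, hup⟩ := nn_box_up g
  set r := min (min ε ε1) 1 with hr
  have hr0 : 0 < r := lt_min (lt_min hε hε1) one_pos
  have hr1 : r ≤ 1 := min_le_right _ _
  have hrε : r ≤ ε := (min_le_left _ _).trans (min_le_left _ _)
  have hrε1 : r ≤ ε1 := (min_le_left _ _).trans (min_le_right _ _)
  have ha0' : (0 : ℝ) < a₀ := by exact_mod_cast ha0
  have ha1' : (0 : ℝ) < a₁ := by exact_mod_cast ha1
  refine ⟨(Real.pi * r ^ (2 * (n₀ : ℝ)) / a₀) * (Real.pi * r ^ (2 * (n₁ : ℝ)) / a₁) * M ^ s0,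
    by positivity, fun s hs hs' => ?_⟩
  have hss : 0 < s - s0 := by linarith
  calc _ = ENNReal.ofReal (Real.pi * r ^ (2 * (n₀ : ℝ)) / a₀ / (s - s0)) *
        ENNReal.ofReal (Real.pi * r ^ (2 * (n₁ : ℝ)) / a₁ / (s - s0)) * ENNReal.ofReal (M ^ s0) := by
        rw [← ENNReal.ofReal_mul (by positivity), ← ENNReal.ofReal_mul (by positivity)]
        congr 1
        field_simp
    _ ≤ (∫⁻ x in ball (0 : ℂ) r, ENNReal.ofReal ‖x‖ ^ (2 * ((n₀ : ℝ) + a₀ * s - 1))) *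
        (∫⁻ y in ball (0 : ℂ) r, ENNReal.ofReal ‖y‖ ^ (2 * ((n₁ : ℝ) + a₁ * s - 1))) *
          ENNReal.ofReal M ^ s :=
        mul_le_mul' (mul_le_mul' (disc_low r hr0 hr1 n₀ a₀ ha0 s0 s hs hs' h0)
          (disc_low r hr0 hr1 n₁ a₁ ha1 s0 s hs hs' h1)) (exp_low M s0 s hM hs)
    _ = ∫⁻ x in ball (0 : ℂ) r, ∫⁻ y in ball (0 : ℂ) r,
        ENNReal.ofReal ‖x‖ ^ (2 * ((n₀ : ℝ) + a₀ * s - 1)) *
        ENNReal.ofReal ‖y‖ ^ (2 * ((n₁ : ℝ) + a₁ * s - 1)) * ENNReal.ofReal M ^ s :=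
        (box_prod _ _ _ _ _).symm
    _ ≤ ∫⁻ x in ball (0 : ℂ) r, ∫⁻ y in ball (0 : ℂ) r, W g a₀ n₀ a₁ n₁ s x y := by
        refine setLIntegral_mono' measurableSet_ball fun x hx => ?_
        refine setLIntegral_mono' measurableSet_ball fun y hy => ?_
        exact mul_le_mul_right (erpow_anti (ENNReal.ofReal_le_ofReal
          (hup x (ball_subset_ball hrε1 hx) y (ball_subset_ball hrε1 hy))) hs'.le) _
    _ ≤ _ := (lintegral_mono_set (ball_subset_ball hrε)).trans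
        (lintegral_mono fun x => lintegral_mono_set (ball_subset_ball hrε))

theorem lo_curveV (s0 : ℝ) (g : ι → MP) (a₀ n₀ m : ℕ) (hm : 1 ≤ m) (h : MP) (k : ι → MP)
    (hg : ∀ j, g j = h ^ m * k j) (hh0 : MvPolynomial.constantCoeff h = 0)
    (hh1 : MvPolynomial.constantCoeff (MvPolynomial.pderiv 1 h) ≠ 0) (ha0 : 0 < a₀)
    (h0 : (n₀ : ℝ) + a₀ * s0 = 0) (h1 : 1 + (m : ℝ) * s0 = 0) : Lo s0 g a₀ n₀ 0 1 := by
  intro ε hε
  obtain ⟨M, hM, ε1, hε1, hup⟩ := nn_box_up k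
  obtain ⟨δ, hδ, C1, hC1, hlow⟩ := curve_lo _ (curveData h hh0 hh1) (min ε ε1) (lt_min hε hε1)
  set r := min (min (min ε ε1) δ) 1 with hr
  have hr0 : 0 < r := lt_min (lt_min (lt_min hε hε1) hδ) one_pos
  have hr1 : r ≤ 1 := min_le_right _ _
  have hrδ : r ≤ δ := (min_le_left _ _).trans (min_le_right _ _)
  have hrε : r ≤ ε := ((min_le_left _ _).trans (min_le_left _ _)).trans (min_le_left _ _)
  have hrε1 : r ≤ ε1 := ((min_le_left _ _).trans (min_le_left _ _)).trans (min_le_right _ _)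
  have ha0' : (0 : ℝ) < a₀ := by exact_mod_cast ha0
  have hm' : (1 : ℝ) ≤ m := by exact_mod_cast hm
  refine ⟨(Real.pi * r ^ (2 * (n₀ : ℝ)) / a₀) * (C1 / m * M ^ s0), by positivity,
    fun s hs hs' => ?_⟩
  have hss : 0 < s - s0 := by linarith
  have hone : 2 * (((1 : ℕ) : ℝ) + ((0 : ℕ) : ℝ) * s - 1) = 0 := by push_cast; ring
  have e1 : 1 + (m : ℝ) * s = m * (s - s0) := by linarith
  have hβ : 0 < 1 + (m : ℝ) * s := by rw [e1]; positivity
  have hβ1 : 1 + (m : ℝ) * s < 1 := by nlinarith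
  calc _ = ENNReal.ofReal (Real.pi * r ^ (2 * (n₀ : ℝ)) / a₀ / (s - s0)) *
        (ENNReal.ofReal (C1 / (1 + m * s)) * ENNReal.ofReal (M ^ s0)) := by
        rw [← ENNReal.ofReal_mul (by positivity), ← ENNReal.ofReal_mul (by positivity), e1]
        congr 1
        field_simp
    _ ≤ (∫⁻ x in ball (0 : ℂ) r, ENNReal.ofReal ‖x‖ ^ (2 * ((n₀ : ℝ) + a₀ * s - 1))) *
        (ENNReal.ofReal (C1 / (1 + m * s)) * ENNReal.ofReal M ^ s) :=
        mul_le_mul' (disc_low r hr0 hr1 n₀ a₀ ha0 s0 s hs hs' h0)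
          (mul_le_mul' le_rfl (exp_low M s0 s hM hs))
    _ = ∫⁻ x in ball (0 : ℂ) r, ENNReal.ofReal ‖x‖ ^ (2 * ((n₀ : ℝ) + a₀ * s - 1)) *
        (ENNReal.ofReal (C1 / (1 + m * s)) * ENNReal.ofReal M ^ s) :=
        (lintegral_mul_const _ (by fun_prop)).symm
    _ ≤ ∫⁻ x in ball (0 : ℂ) r, ∫⁻ y in ball (0 : ℂ) (min ε ε1), W g a₀ n₀ 0 1 s x y := by
        refine setLIntegral_mono' measurableSet_ball fun x hx => ?_
        have hme : Measurable fun y : ℂ => MvPolynomial.eval ![x, y] h :=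
            ((continuous_ev2 h).comp (Continuous.prodMk_right x)).measurable
        calc _ ≤ ENNReal.ofReal ‖x‖ ^ (2 * ((n₀ : ℝ) + a₀ * s - 1)) *
              ((∫⁻ y in ball (0 : ℂ) (min ε ε1),
                ENNReal.ofReal ‖MvPolynomial.eval ![x, y] h‖ ^ (2 * ((1 + m * s) - 1))) *
                  ENNReal.ofReal M ^ s) := by
              refine mul_le_mul_right (mul_le_mul_left ?_ _) _
              exact hlow x (ball_subset_ball hrδ hx) (1 + m * s) hβ hβ1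
          _ = ∫⁻ y in ball (0 : ℂ) (min ε ε1),
              ENNReal.ofReal ‖x‖ ^ (2 * ((n₀ : ℝ) + a₀ * s - 1)) *
              (ENNReal.ofReal ‖MvPolynomial.eval ![x, y] h‖ ^ (2 * ((1 + m * s) - 1)) *
                ENNReal.ofReal M ^ s) := by
              rw [lintegral_const_mul _ (by fun_prop), lintegral_mul_const _ (by fun_prop)]
          _ ≤ _ := by
              refine setLIntegral_mono' measurableSet_ball fun y hy => ?_
              rw [W, hone, ENNReal.rpow_zero, mul_one, ofReal_nn_curve g k h m hg]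
              exact mul_le_mul_right (mul_le_mul_right (erpow_anti (ENNReal.ofReal_le_ofReal
                (hup x (ball_subset_ball hrε1 hx) y (ball_subset_ball (min_le_right _ _) hy)))
                hs'.le) _) _
    _ ≤ _ := (lintegral_mono_set (ball_subset_ball hrε)).trans
        (lintegral_mono fun x => lintegral_mono_set (ball_subset_ball (min_le_left _ _)))

theorem lo_curveU (s0 : ℝ) (g : ι → MP) (a₁ n₁ m : ℕ) (hm : 1 ≤ m) (h : MP) (k : ι → MP)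
    (hg : ∀ j, g j = h ^ m * k j) (hh0 : MvPolynomial.constantCoeff h = 0)
    (hh1 : MvPolynomial.constantCoeff (MvPolynomial.pderiv 0 h) ≠ 0) (ha1 : 0 < a₁)
    (h0 : (n₁ : ℝ) + a₁ * s0 = 0) (h1 : 1 + (m : ℝ) * s0 = 0) : Lo s0 g 0 1 a₁ n₁ := by
  intro ε hε
  obtain ⟨M, hM, ε1, hε1, hup⟩ := nn_box_up k
  obtain ⟨δ, hδ, C1, hC1, hlow⟩ := curve_lo _ (curveData' h hh0 hh1) (min ε ε1) (lt_min hε hε1)
  set r := min (min (min ε ε1) δ) 1 with hr
  have hr0 : 0 < r := lt_min (lt_min (lt_min hε hε1) hδ) one_pos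
  have hr1 : r ≤ 1 := min_le_right _ _
  have hrδ : r ≤ δ := (min_le_left _ _).trans (min_le_right _ _)
  have hrε : r ≤ ε := ((min_le_left _ _).trans (min_le_left _ _)).trans (min_le_left _ _)
  have hrε1 : r ≤ ε1 := ((min_le_left _ _).trans (min_le_left _ _)).trans (min_le_right _ _)
  have ha1' : (0 : ℝ) < a₁ := by exact_mod_cast ha1
  have hm' : (1 : ℝ) ≤ m := by exact_mod_cast hm
  refine ⟨(Real.pi * r ^ (2 * (n₁ : ℝ)) / a₁) * (C1 / m * M ^ s0), by positivity,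
    fun s hs hs' => ?_⟩
  have hss : 0 < s - s0 := by linarith
  have hone : 2 * (((1 : ℕ) : ℝ) + ((0 : ℕ) : ℝ) * s - 1) = 0 := by push_cast; ring
  have e1 : 1 + (m : ℝ) * s = m * (s - s0) := by linarith
  have hβ : 0 < 1 + (m : ℝ) * s := by rw [e1]; positivity
  have hβ1 : 1 + (m : ℝ) * s < 1 := by nlinarith
  rw [lintegral_lintegral_swap (measurable_W g 0 1 a₁ n₁ s).aemeasurable]
  calc _ = ENNReal.ofReal (Real.pi * r ^ (2 * (n₁ : ℝ)) / a₁ / (s - s0)) *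
        (ENNReal.ofReal (C1 / (1 + m * s)) * ENNReal.ofReal (M ^ s0)) := by
        rw [← ENNReal.ofReal_mul (by positivity), ← ENNReal.ofReal_mul (by positivity), e1]
        congr 1
        field_simp
    _ ≤ (∫⁻ x in ball (0 : ℂ) r, ENNReal.ofReal ‖x‖ ^ (2 * ((n₁ : ℝ) + a₁ * s - 1))) *
        (ENNReal.ofReal (C1 / (1 + m * s)) * ENNReal.ofReal M ^ s) :=
        mul_le_mul' (disc_low r hr0 hr1 n₁ a₁ ha1 s0 s hs hs' h0)
          (mul_le_mul' le_rfl (exp_low M s0 s hM hs))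
    _ = ∫⁻ x in ball (0 : ℂ) r, ENNReal.ofReal ‖x‖ ^ (2 * ((n₁ : ℝ) + a₁ * s - 1)) *
        (ENNReal.ofReal (C1 / (1 + m * s)) * ENNReal.ofReal M ^ s) :=
        (lintegral_mul_const _ (by fun_prop)).symm
    _ ≤ ∫⁻ x in ball (0 : ℂ) r, ∫⁻ y in ball (0 : ℂ) (min ε ε1), W g 0 1 a₁ n₁ s y x := by
        refine setLIntegral_mono' measurableSet_ball fun x hx => ?_
        have hme : Measurable fun y : ℂ => MvPolynomial.eval ![y, x] h :=
            ((continuous_ev2 h).comp (Continuous.prodMk_left x)).measurable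
        calc _ ≤ ENNReal.ofReal ‖x‖ ^ (2 * ((n₁ : ℝ) + a₁ * s - 1)) *
              ((∫⁻ y in ball (0 : ℂ) (min ε ε1),
                ENNReal.ofReal ‖MvPolynomial.eval ![y, x] h‖ ^ (2 * ((1 + m * s) - 1))) *
                  ENNReal.ofReal M ^ s) := by
              refine mul_le_mul_right (mul_le_mul_left ?_ _) _
              exact hlow x (ball_subset_ball hrδ hx) (1 + m * s) hβ hβ1
          _ = ∫⁻ y in ball (0 : ℂ) (min ε ε1),
              ENNReal.ofReal ‖x‖ ^ (2 * ((n₁ : ℝ) + a₁ * s - 1)) *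
              (ENNReal.ofReal ‖MvPolynomial.eval ![y, x] h‖ ^ (2 * ((1 + m * s) - 1)) *
                ENNReal.ofReal M ^ s) := by
              rw [lintegral_const_mul _ (by fun_prop), lintegral_mul_const _ (by fun_prop)]
          _ ≤ _ := by
              refine setLIntegral_mono' measurableSet_ball fun y hy => ?_
              rw [W, hone, ENNReal.rpow_zero, one_mul, ofReal_nn_curve g k h m hg]
              exact mul_le_mul_right (mul_le_mul_right (erpow_anti (ENNReal.ofReal_le_ofReal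
                (hup y (ball_subset_ball (min_le_right _ _) hy) x (ball_subset_ball hrε1 hx)))
                hs'.le) _) _
    _ ≤ _ := (lintegral_mono_set (ball_subset_ball hrε)).trans
        (lintegral_mono fun x => lintegral_mono_set (ball_subset_ball (min_le_left _ _)))

theorem lo_blow_I (s0 : ℝ) (g : ι → MP) (a₀ n₀ a₁ n₁ m : ℕ) (gI : ι → MP)
    (hgI : ∀ j, MvPolynomial.aeval chartI (g j) = MvPolynomial.X 1 ^ m * gI j)
    (hI : Lo s0 gI a₀ n₀ (a₀ + a₁ + m) (n₀ + n₁)) : Lo s0 g a₀ n₀ a₁ n₁ := by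
  intro ε hε
  set r := min ε 1 with hr
  have hr0 : 0 < r := lt_min hε one_pos
  have hrε : r ≤ ε := min_le_left _ _
  have hr1 : r ≤ 1 := min_le_right _ _
  obtain ⟨C1, hC1, hlow⟩ := hI r hr0
  refine ⟨C1, hC1, fun s hs hs' => (hlow s hs hs').trans ?_⟩
  have e1 : ∫⁻ x in ball (0 : ℂ) r, ∫⁻ y in ball (0 : ℂ) r,
      W gI a₀ n₀ (a₀ + a₁ + m) (n₀ + n₁) s x y = ∫⁻ y in ball (0 : ℂ) r, ∫⁻ x in ball (0 : ℂ) r,
      W gI a₀ n₀ (a₀ + a₁ + m) (n₀ + n₁) s x y :=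
    lintegral_lintegral_swap (measurable_W gI a₀ n₀ (a₀ + a₁ + m) (n₀ + n₁) s).aemeasurable
  have e2 : ∫⁻ x in ball (0 : ℂ) ε, ∫⁻ y in ball (0 : ℂ) ε, W g a₀ n₀ a₁ n₁ s x y =
      ∫⁻ y in ball (0 : ℂ) ε, ∫⁻ x in ball (0 : ℂ) ε, W g a₀ n₀ a₁ n₁ s x y :=
    lintegral_lintegral_swap (measurable_W g a₀ n₀ a₁ n₁ s).aemeasurable
  rw [e1, e2]
  refine le_trans (lintegral_mono_ae ?_) (lintegral_mono_set (ball_subset_ball hrε))
  filter_upwards [ae_ne_zero (ball (0 : ℂ) r), ae_restrict_mem measurableSet_ball] with y hy hyr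
  have h1 : ∫⁻ x in ball (0 : ℂ) r, W gI a₀ n₀ (a₀ + a₁ + m) (n₀ + n₁) s x y =
      ∫⁻ x in ball (0 : ℂ) (‖y‖ * r), W g a₀ n₀ a₁ n₁ s x y := by
    have h2 := scale_ball y hy 0 r
    rw [mul_zero] at h2
    rw [← h2, scale y hy _ measurableSet_ball, ← lintegral_const_mul' _ _ ENNReal.ofReal_ne_top]
    refine lintegral_congr fun w => ?_
    rw [W_blow_I g gI m hgI a₀ n₀ a₁ n₁ s w y hy]
  rw [h1]
  refine lintegral_mono_set (ball_subset_ball ?_)
  rw [mem_ball_zero_iff] at hyr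
  have := norm_nonneg y
  nlinarith

theorem lo_blow_0 (s0 : ℝ) (g : ι → MP) (a₀ n₀ a₁ n₁ m : ℕ) (g0 : ι → MP)
    (hg0 : ∀ j, MvPolynomial.aeval (chart 0) (g j) = MvPolynomial.X 0 ^ m * g0 j)
    (hI : Lo s0 g0 (a₀ + a₁ + m) (n₀ + n₁) a₁ n₁) : Lo s0 g a₀ n₀ a₁ n₁ := by
  intro ε hε
  set r := min ε 1 with hr
  have hr0 : 0 < r := lt_min hε one_pos
  have hrε : r ≤ ε := min_le_left _ _
  have hr1 : r ≤ 1 := min_le_right _ _
  obtain ⟨C1, hC1, hlow⟩ := hI r hr0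
  refine ⟨C1, hC1, fun s hs hs' => (hlow s hs hs').trans ?_⟩
  refine le_trans (lintegral_mono_ae ?_) (lintegral_mono_set (ball_subset_ball hrε))
  filter_upwards [ae_ne_zero (ball (0 : ℂ) r), ae_restrict_mem measurableSet_ball] with x hx hxr
  have h1 : ∫⁻ w in ball (0 : ℂ) r, W g0 (a₀ + a₁ + m) (n₀ + n₁) a₁ n₁ s x w =
      ∫⁻ y in ball (0 : ℂ) (‖x‖ * r), W g a₀ n₀ a₁ n₁ s x y := by
    have h2 := scale_ball x hx 0 r
    rw [mul_zero] at h2
    rw [← h2, scale x hx _ measurableSet_ball, ← lintegral_const_mul' _ _ ENNReal.ofReal_ne_top]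
    refine lintegral_congr fun w => ?_
    rw [← W_blow_0 g g0 m hg0 a₀ n₀ a₁ n₁ s x w hx, zero_add]
  rw [h1]
  refine lintegral_mono_set (ball_subset_ball ?_)
  rw [mem_ball_zero_iff] at hxr
  have := norm_nonneg x
  nlinarith

theorem lo_blow_c (s0 : ℝ) (g : ι → MP) (a₀ n₀ a₁ n₁ m : ℕ) (c : ℂ) (hc : c ≠ 0) (gc : ι → MP)
    (hgc : ∀ j, MvPolynomial.aeval (chart c) (g j) = MvPolynomial.X 0 ^ m * gc j)
    (hI : Lo s0 gc (a₀ + a₁ + m) (n₀ + n₁) 0 1) : Lo s0 g a₀ n₀ a₁ n₁ := by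
  intro ε hε
  have hcp : 0 < ‖c‖ := norm_pos_iff.2 hc
  set r := min (min ε (‖c‖ / 2)) (ε / (2 * ‖c‖)) with hr
  have hr0 : 0 < r := lt_min (lt_min hε (by positivity)) (by positivity)
  have hrε : r ≤ ε := (min_le_left _ _).trans (min_le_left _ _)
  have hrc : r ≤ ‖c‖ / 2 := (min_le_left _ _).trans (min_le_right _ _)
  have hrc2 : r * (2 * ‖c‖) ≤ ε := by
    have := min_le_right (min ε (‖c‖ / 2)) (ε / (2 * ‖c‖))
    rwa [← hr, le_div_iff₀ (by positivity)] at this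
  obtain ⟨C1, hC1, hlow⟩ := hI r hr0
  -- a lower bound of the factor, uniform in the exponent
  set r1 : ℝ := 2 * ((n₁ : ℝ) + a₁ * s0 - 1) with hr1
  set r2 : ℝ := 2 * ((n₁ : ℝ) - 1) with hr2
  set κ : ℝ := min (min ((‖c‖ / 2) ^ r1) ((‖c‖ / 2) ^ r2))
    (min ((3 / 2 * ‖c‖) ^ r1) ((3 / 2 * ‖c‖) ^ r2)) with hκ
  have hκ0 : 0 < κ := by
    rw [hκ]
    refine lt_min (lt_min ?_ ?_) (lt_min ?_ ?_) <;> exact Real.rpow_pos_of_pos (by positivity) _
  have hpow : ∀ (b t : ℝ), 0 < b → r1 ≤ t → t ≤ r2 → min (b ^ r1) (b ^ r2) ≤ b ^ t := by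
    intro b t hb h1 h2
    rcases le_total 1 b with h | h
    · exact (min_le_left _ _).trans (Real.rpow_le_rpow_of_exponent_le h h1)
    · exact (min_le_right _ _).trans (Real.rpow_le_rpow_of_exponent_ge hb h h2)
  refine ⟨κ * C1, by positivity, fun s hs hs' => ?_⟩
  set t : ℝ := 2 * ((n₁ : ℝ) + a₁ * s - 1) with ht
  have ht1 : r1 ≤ t := by
    rw [hr1, ht]
    have : (a₁ : ℝ) * s0 ≤ a₁ * s := mul_le_mul_of_nonneg_left hs.le (Nat.cast_nonneg _)
    linarith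
  have ht2 : t ≤ r2 := by
    rw [hr2, ht]
    have : (a₁ : ℝ) * s ≤ 0 := mul_nonpos_of_nonneg_of_nonpos (Nat.cast_nonneg _) hs'.le
    linarith
  have hfac : ∀ v ∈ ball (0 : ℂ) r, ENNReal.ofReal κ ≤ ENNReal.ofReal ‖c + v‖ ^ t := by
    intro v hv
    rw [mem_ball_zero_iff] at hv
    refine le_trans ?_ (near_c c hc v (lt_of_lt_of_le hv hrc) t).2
    rw [ENNReal.ofReal_rpow_of_pos (by positivity), ENNReal.ofReal_rpow_of_pos (by positivity)]
    refine le_min ?_ ?_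
    · exact ENNReal.ofReal_le_ofReal ((min_le_left _ _).trans (hpow _ t (by positivity) ht1 ht2))
    · exact ENNReal.ofReal_le_ofReal ((min_le_right _ _).trans (hpow _ t (by positivity) ht1 ht2))
  calc _ = ENNReal.ofReal κ * ENNReal.ofReal (C1 / (s - s0) ^ 2) := by
        rw [← ENNReal.ofReal_mul hκ0.le, mul_div_assoc]
    _ ≤ ENNReal.ofReal κ * ∫⁻ x in ball (0 : ℂ) r, ∫⁻ v in ball (0 : ℂ) r,
        W gc (a₀ + a₁ + m) (n₀ + n₁) 0 1 s x v := mul_le_mul_right (hlow s hs hs') _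
    _ = ∫⁻ x in ball (0 : ℂ) r, ENNReal.ofReal κ * ∫⁻ v in ball (0 : ℂ) r,
        W gc (a₀ + a₁ + m) (n₀ + n₁) 0 1 s x v :=
        (lintegral_const_mul' _ _ ENNReal.ofReal_ne_top).symm
    _ ≤ ∫⁻ x in ball (0 : ℂ) r, ∫⁻ y in ball (0 : ℂ) ε, W g a₀ n₀ a₁ n₁ s x y := by
        refine lintegral_mono_ae ?_
        filter_upwards [ae_ne_zero (ball (0 : ℂ) r), ae_restrict_mem measurableSet_ball]
          with x hx hxr
        rw [← lintegral_const_mul' _ _ ENNReal.ofReal_ne_top]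
        calc _ ≤ ∫⁻ v in ball (0 : ℂ) r, ENNReal.ofReal (‖x‖ ^ 2) *
              W g a₀ n₀ a₁ n₁ s x (x * (c + v)) := by
              refine setLIntegral_mono' measurableSet_ball fun v hv => ?_
              rw [W_blow_c g gc m c hgc a₀ n₀ a₁ n₁ s x v hx]
              exact mul_le_mul_left (hfac v hv) _
          _ = ∫⁻ y in ball (x * c) (‖x‖ * r), W g a₀ n₀ a₁ n₁ s x y := by
              rw [← scale_ball x hx, scale x hx _ measurableSet_ball, translate_ball c r,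
                lintegral_const_mul' _ _ ENNReal.ofReal_ne_top]
          _ ≤ _ := by
              refine lintegral_mono_set fun y hy => ?_
              rw [mem_ball, dist_eq_norm] at hy
              rw [mem_ball_zero_iff] at hxr ⊢
              have h1 := norm_add_le (y - x * c) (x * c)
              rw [sub_add_cancel, norm_mul] at h1
              have h2 : 0 < ‖x‖ := norm_pos_iff.2 hx
              nlinarith
    _ ≤ _ := lintegral_mono_set (ball_subset_ball hrε)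

theorem al_zero (s0 : ℝ) (a n : ℕ) (hn : 1 ≤ n) (h : al (-s0) (a, n) = 0) :
    0 < a ∧ (n : ℝ) + a * s0 = 0 := by
  simp only [al] at h
  have h1 : (1 : ℝ) ≤ n := by exact_mod_cast hn
  constructor
  · rcases Nat.eq_zero_or_pos a with ha | ha
    · subst ha
      push_cast at h
      linarith
    · exact ha
  · linarith

theorem lo_tree (s0 : ℝ) {g : ι → MP} {a₀ n₀ a₁ n₁ : ℕ} {Λ : Set Pr}
    (hT : LT g a₀ n₀ a₁ n₁ Λ) : 1 ≤ n₀ → 1 ≤ n₁ → (∃ q ∈ Λ, ZZ (-s0) q) →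
      Lo s0 g a₀ n₀ a₁ n₁ := by
  induction hT with
  | unit g a₀ n₀ a₁ n₁ j hj =>
    rintro hn0 hn1 ⟨q, hq, hz⟩
    rw [Set.mem_singleton_iff] at hq
    subst hq
    obtain ⟨ha0, h0⟩ := al_zero s0 a₀ n₀ hn0 hz.1
    obtain ⟨ha1, h1⟩ := al_zero s0 a₁ n₁ hn1 hz.2
    exact lo_unit s0 g a₀ n₀ a₁ n₁ ha0 ha1 h0 h1
  | curveV g a₀ n₀ m hm h k hg h0 h1 j hj =>
    rintro hn0 hn1 ⟨q, hq, hz⟩
    rw [Set.mem_singleton_iff] at hq
    subst hq
    obtain ⟨ha0, h2⟩ := al_zero s0 a₀ n₀ hn0 hz.1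
    obtain ⟨-, h3⟩ := al_zero s0 m 1 le_rfl hz.2
    exact lo_curveV s0 g a₀ n₀ m hm h k hg h0 h1 ha0 h2 (by simpa using h3)
  | curveU g a₁ n₁ m hm h k hg h0 h1 j hj =>
    rintro hn0 hn1 ⟨q, hq, hz⟩
    rw [Set.mem_singleton_iff] at hq
    subst hq
    obtain ⟨ha1, h2⟩ := al_zero s0 a₁ n₁ hn1 hz.1
    obtain ⟨-, h3⟩ := al_zero s0 m 1 le_rfl hz.2
    exact lo_curveU s0 g a₁ n₁ m hm h k hg h0 h1 ha1 h2 (by simpa using h3)
  | blowup g a₀ n₀ a₁ n₁ m hm gc gI hgc hgI S h0S hS Λc ΛI h0 hcc hI ih0 ihc ihI =>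
    rintro hn0 hn1 ⟨q, hq, hz⟩
    rcases hq with hq | ⟨c, hcS, hq⟩ | hq
    · exact lo_blow_I s0 g a₀ n₀ a₁ n₁ m gI hgI (ihI hn0 (by omega) ⟨q, hq, hz⟩)
    · by_cases hc : c = 0
      · subst hc
        exact lo_blow_0 s0 g a₀ n₀ a₁ n₁ m (gc 0) (hgc 0) (ih0 (by omega) hn1 ⟨q, hq, hz⟩)
      · exact lo_blow_c s0 g a₀ n₀ a₁ n₁ m c hc (gc c) (hgc c)
          (ihc c hcS hc (by omega) le_rfl ⟨q, hq, hz⟩)
    · rw [hq] at hz
      have := hz.2
      simp [al] at this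

end Pool.Agent.Y230.PL
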