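import Pool.Agent.W574.SM.Blow
import Pool.Agent.W574.SM.Reg

set_option autoImplicit false
set_option linter.unusedSectionVars false
set_option linter.unusedVariables false

/-! # The combinatorics of the blow-up tree of a point of the plane

Points at which two divisors with `n + a s₀ = 0` meet occur only if `s₀` is minus the log
canonical threshold. -/

namespace Pool.Agent.Y230.PL

open Polynomial Pool.Agent.W574.SM

/-- a pair of divisors, each with its numbers `(a, n)` -/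
abbrev Pr := (ℕ × ℕ) × (ℕ × ℕ)

/-- The tree of the blow-ups, together with the set of the pairs of divisors which meet. -/
inductive LT {ι : Type} :
    (ι → MP) → ℕ → ℕ → ℕ → ℕ → Set Pr → Prop
  | unit (g : ι → MP) (a₀ n₀ a₁ n₁ : ℕ) (j : ι)
      (hj : MvPolynomial.constantCoeff (g j) ≠ 0) :
      LT g a₀ n₀ a₁ n₁ {((a₀, n₀), (a₁, n₁))}
  | curveV (g : ι → MP) (a₀ n₀ m : ℕ) (hm : 1 ≤ m)
      (h : MP) (k : ι → MP)
      (hg : ∀ j, g j = h ^ m * k j) (h0 : MvPolynomial.constantCoeff h = 0)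
      (h1 : MvPolynomial.constantCoeff (MvPolynomial.pderiv 1 h) ≠ 0) (j : ι)
      (hj : MvPolynomial.constantCoeff (k j) ≠ 0) :
      LT g a₀ n₀ 0 1 {((a₀, n₀), (m, 1))}
  | curveU (g : ι → MP) (a₁ n₁ m : ℕ) (hm : 1 ≤ m)
      (h : MP) (k : ι → MP)
      (hg : ∀ j, g j = h ^ m * k j) (h0 : MvPolynomial.constantCoeff h = 0)
      (h1 : MvPolynomial.constantCoeff (MvPolynomial.pderiv 0 h) ≠ 0) (j : ι)
      (hj : MvPolynomial.constantCoeff (k j) ≠ 0) :
      LT g 0 1 a₁ n₁ {((a₁, n₁), (m, 1))}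
  | blowup (g : ι → MP) (a₀ n₀ a₁ n₁ m : ℕ) (hm : 1 ≤ m)
      (gc : ℂ → ι → MP) (gI : ι → MP)
      (hgc : ∀ c j, MvPolynomial.aeval (chart c) (g j) = MvPolynomial.X 0 ^ m * gc c j)
      (hgI : ∀ j, MvPolynomial.aeval chartI (g j) = MvPolynomial.X 1 ^ m * gI j)
      (S : Finset ℂ) (h0S : 0 ∈ S) (hS : ∀ c ∉ S, ∃ j, MvPolynomial.constantCoeff (gc c j) ≠ 0)
      (Λc : ℂ → Set Pr) (ΛI : Set Pr)
      (h0 : LT (gc 0) (a₀ + a₁ + m) (n₀ + n₁) a₁ n₁ (Λc 0))
      (hc : ∀ c ∈ S, c ≠ 0 → LT (gc c) (a₀ + a₁ + m) (n₀ + n₁) 0 1 (Λc c))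
      (hI : LT gI a₀ n₀ (a₀ + a₁ + m) (n₀ + n₁) ΛI) :
      LT g a₀ n₀ a₁ n₁
        ({q | q ∈ ΛI ∨ (∃ c ∈ S, q ∈ Λc c) ∨ q = ((a₀ + a₁ + m, n₀ + n₁), (0, 1))})

variable {ι : Type}

/-- `n - c a` -/
def al (c : ℝ) (p : ℕ × ℕ) : ℝ := (p.2 : ℝ) - c * p.1

/-- both numbers are nonnegative -/
def NN (c : ℝ) (q : Pr) : Prop := 0 ≤ al c q.1 ∧ 0 ≤ al c q.2

/-- both numbers are zero -/
def ZZ (c : ℝ) (q : Pr) : Prop := al c q.1 = 0 ∧ al c q.2 = 0

/-- the order of the restriction to `u = 0` is at most `μ` -/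
def OL0 (g : ι → MP) (μ : ℕ) : Prop := ∃ j, ∃ i ≤ μ, (res0 (g j)).coeff i ≠ 0

/-- the order of the restriction to `v = 0` is at most `μ` -/
def OL1 (g : ι → MP) (μ : ℕ) : Prop := ∃ j, ∃ i ≤ μ, (res1 (g j)).coeff i ≠ 0

theorem res0_chartI (q : MP) : res0 (MvPolynomial.aeval chartI q) = res0 q := by
  have h : res0.comp (MvPolynomial.aeval chartI) = res0 := by
    apply ext2
    · rw [AlgHom.comp_apply, chartI_X0, map_mul, res0_X0, zero_mul]
    · rw [AlgHom.comp_apply, chartI_X1]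
  exact congrArg (fun φ : MP →ₐ[ℂ] ℂ[X] => φ q) h

theorem res1_chart0 (q : MP) : res1 (MvPolynomial.aeval (chart 0) q) = res1 q := by
  have h : res1.comp (MvPolynomial.aeval (chart 0)) = res1 := by
    apply ext2
    · rw [AlgHom.comp_apply, chart_X0]
    · rw [AlgHom.comp_apply, chart_X1, map_mul, map_zero, add_zero, res1_X1, mul_zero]
  exact congrArg (fun φ : MP →ₐ[ℂ] ℂ[X] => φ q) h

theorem OL0_chartI {g gI : ι → MP} {m μ : ℕ}
    (hgI : ∀ j, MvPolynomial.aeval chartI (g j) = MvPolynomial.X 1 ^ m * gI j) (h : OL0 g μ) :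
    m ≤ μ ∧ OL0 gI (μ - m) := by
  obtain ⟨j, i, hi, hne⟩ := h
  have h1 : res0 (g j) = X ^ m * res0 (gI j) := by
    rw [← res0_chartI, hgI, map_mul, map_pow, res0_X1]
  rw [h1, coeff_X_pow_mul'] at hne
  have hmi : m ≤ i := by
    by_contra h2
    rw [if_neg h2] at hne
    exact hne rfl
  rw [if_pos hmi] at hne
  exact ⟨hmi.trans hi, j, i - m, by omega, hne⟩

theorem OL1_chart0 {g g0 : ι → MP} {m μ : ℕ}
    (hg0 : ∀ j, MvPolynomial.aeval (chart 0) (g j) = MvPolynomial.X 0 ^ m * g0 j) (h : OL1 g μ) :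
    m ≤ μ ∧ OL1 g0 (μ - m) := by
  obtain ⟨j, i, hi, hne⟩ := h
  have h1 : res1 (g j) = X ^ m * res1 (g0 j) := by
    rw [← res1_chart0, hg0, map_mul, map_pow, res1_X0]
  rw [h1, coeff_X_pow_mul'] at hne
  have hmi : m ≤ i := by
    by_contra h2
    rw [if_neg h2] at hne
    exact hne rfl
  rw [if_pos hmi] at hne
  exact ⟨hmi.trans hi, j, i - m, by omega, hne⟩

theorem blow_facts (g : ι → MP) (m : ℕ) (gc : ℂ → ι → MP) (gI : ι → MP)
    (hgc : ∀ c j, MvPolynomial.aeval (chart c) (g j) = MvPolynomial.X 0 ^ m * gc c j)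
    (hgI : ∀ j, MvPolynomial.aeval chartI (g j) = MvPolynomial.X 1 ^ m * gI j)
    (S : Finset ℂ) (hS : ∀ c ∉ S, ∃ j, MvPolynomial.constantCoeff (gc c j) ≠ 0) :
    ∃ (ρ : ℂ → ℕ) (ρI : ℕ), (∀ c, OL0 (gc c) (ρ c)) ∧ OL1 gI ρI ∧
      (∀ c c', c ≠ c' → ρ c + ρ c' ≤ m) ∧ ∀ c, ρ c + ρI ≤ m := by
  classical
  obtain ⟨c1, hc1⟩ := Infinite.exists_notMem_finset S
  obtain ⟨j0, hj0⟩ := hS c1 hc1
  have hPc : ∀ c j, res0 (gc c j) = (res0 (gc 0 j)).comp (X + C c) := fun c j =>
    res0_chart (g j) (gc 0 j) (gc c j) m c (hgc 0 j) (hgc c j)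
  set P := res0 (gc 0 j0) with hP
  have hP0 : P ≠ 0 := by
    intro h
    apply hj0
    rw [← coeff_res0, hPc, ← hP, h, zero_comp, coeff_zero]
  have hdeg := coeff_resI (g j0) (gc 0 j0) (gI j0) m (hgc 0 j0) (hgI j0)
  have hd : P.natDegree ≤ m := hdeg.1
  refine ⟨fun c => P.rootMultiplicity c, m - P.natDegree, fun c => ⟨j0, _, le_rfl, ?_⟩,
    ⟨j0, _, le_rfl, ?_⟩, ?_, ?_⟩
  · rw [hPc]
    exact (ord_comp P hP0 c).2
  · rw [hdeg.2.2 _ (by omega)]
    have h3 : m - (m - P.natDegree) = P.natDegree := by omega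
    rw [h3]
    exact leadingCoeff_ne_zero.2 hP0
  · intro c c' hcc
    have h1 := sum_mult_le P hP0 {c, c'}
    rw [Finset.sum_pair hcc] at h1
    exact h1.trans hd
  · intro c
    have h1 := sum_mult_le P hP0 {c}
    rw [Finset.sum_singleton] at h1
    change P.rootMultiplicity c + (m - P.natDegree) ≤ m
    omega

theorem ord_curve {g : ι → MP} {m μ : ℕ} {h : MP} {k : ι → MP}
    (hg : ∀ j, g j = h ^ m * k j) (h0 : MvPolynomial.constantCoeff h = 0) :
    (OL0 g μ → m ≤ μ) ∧ (OL1 g μ → m ≤ μ) := by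
  constructor
  · rintro ⟨j, i, hi, hne⟩
    by_contra hlt
    apply hne
    rw [hg, map_mul, map_pow]
    have h1 : X ∣ res0 h := X_dvd_iff.2 (by rw [coeff_res0, h0])
    have h2 : X ^ m ∣ res0 h ^ m * res0 (k j) := (pow_dvd_pow_of_dvd h1 m).mul_right _
    exact X_pow_dvd_iff.1 h2 i (by omega)
  · rintro ⟨j, i, hi, hne⟩
    by_contra hlt
    apply hne
    rw [hg, map_mul, map_pow]
    have h1 : X ∣ res1 h := X_dvd_iff.2 (by rw [coeff_res1, h0])
    have h2 : X ^ m ∣ res1 h ^ m * res1 (k j) := (pow_dvd_pow_of_dvd h1 m).mul_right _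
    exact X_pow_dvd_iff.1 h2 i (by omega)

theorem mulc {c : ℝ} (hc : 0 ≤ c) {a b : ℕ} (h : a ≤ b) : c * (a : ℝ) ≤ c * b :=
  mul_le_mul_of_nonneg_left (Nat.cast_le.2 h) hc

/-- the general induction for a base curve `u = 0`, nonstrict and strict form -/
theorem base0 {g : ι → MP} {a₀ n₀ a₁ n₁ : ℕ} {Λ : Set Pr} (hT : LT g a₀ n₀ a₁ n₁ Λ) (c : ℝ)
    (hc : 0 ≤ c) : ∀ μ : ℕ, OL0 g μ → 0 ≤ (n₀ : ℝ) - c * a₀ →
      ((c * μ ≤ (n₁ : ℝ) - c * a₁ → c * μ ≤ 1 → ∀ q ∈ Λ, NN c q) ∧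
      (c * μ < (n₁ : ℝ) - c * a₁ → c * μ < 1 → ∀ q ∈ Λ, ¬ ZZ c q)) := by
  induction hT with
  | unit g a₀ n₀ a₁ n₁ j hj =>
    intro μ hμ h0
    have hμ0 : 0 ≤ c * μ := mul_nonneg hc (Nat.cast_nonneg μ)
    refine ⟨fun h1 _ q hq => ?_, fun h1 _ q hq => ?_⟩
    · rw [Set.mem_singleton_iff] at hq
      subst hq
      exact ⟨h0, hμ0.trans h1⟩
    · rw [Set.mem_singleton_iff] at hq
      subst hq
      rintro ⟨-, h2⟩
      simp only [al] at h2
      linarith
  | curveV g a₀ n₀ m hm h k hg h0 h1 j hj =>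
    intro μ hμ hα
    have hmμ := mulc hc ((ord_curve hg h0).1 hμ)
    refine ⟨fun _ h2 q hq => ?_, fun _ h2 q hq => ?_⟩
    · rw [Set.mem_singleton_iff] at hq
      subst hq
      refine ⟨hα, ?_⟩
      simp only [al, Nat.cast_one]
      linarith
    · rw [Set.mem_singleton_iff] at hq
      subst hq
      rintro ⟨-, h3⟩
      simp only [al, Nat.cast_one] at h3
      linarith
  | curveU g a₁ n₁ m hm h k hg h0 h1 j hj =>
    intro μ hμ hα
    have hmμ := mulc hc ((ord_curve hg h0).1 hμ)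
    have hμ0 : 0 ≤ c * μ := mul_nonneg hc (Nat.cast_nonneg μ)
    refine ⟨fun h3 h2 q hq => ?_, fun h3 h2 q hq => ?_⟩
    · rw [Set.mem_singleton_iff] at hq
      subst hq
      refine ⟨hμ0.trans h3, ?_⟩
      simp only [al, Nat.cast_one]
      linarith
    · rw [Set.mem_singleton_iff] at hq
      subst hq
      rintro ⟨-, h3⟩
      simp only [al, Nat.cast_one] at h3
      linarith
  | blowup g a₀ n₀ a₁ n₁ m hm gc gI hgc hgI S h0S hS Λc ΛI h0 hcc hI ih0 ihc ihI =>
    intro μ hμ hα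
    obtain ⟨hmμ, hμI⟩ := OL0_chartI hgI hμ
    obtain ⟨ρ, ρI, hρ, hρI, hpair, hpairI⟩ := blow_facts g m gc gI hgc hgI S hS
    have hρm : ∀ c, ρ c ≤ m := fun c => by have := hpairI c; omega
    have hcm := mulc hc hmμ
    have hsub : c * ((μ - m : ℕ) : ℝ) = c * μ - c * m := by
      rw [Nat.cast_sub hmμ]; ring
    have hcm0 : 0 ≤ c * m := mul_nonneg hc (Nat.cast_nonneg m)
    have hnew : ((n₀ + n₁ : ℕ) : ℝ) - c * ((a₀ + a₁ + m : ℕ) : ℝ) =
        ((n₀ : ℝ) - c * a₀) + ((n₁ : ℝ) - c * a₁) - c * m := by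
      push_cast; ring
    constructor
    · intro h1 h2 q hq
      have hα' : 0 ≤ ((n₀ + n₁ : ℕ) : ℝ) - c * ((a₀ + a₁ + m : ℕ) : ℝ) := by rw [hnew]; linarith
      rcases hq with hq | ⟨d, hdS, hq⟩ | hq
      · exact (ihI (μ - m) hμI hα).1 (by rw [hsub, hnew]; linarith) (by rw [hsub]; linarith) q hq
      · have hρd := mulc hc (hρm d)
        by_cases hd : d = 0
        · subst hd
          exact (ih0 (ρ 0) (hρ 0) hα').1 (by linarith) (by linarith) q hq
        · exact (ihc d hdS hd (ρ d) (hρ d) hα').1 (by push_cast; linarith) (by linarith) q hq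
      · rw [hq]
        refine ⟨hα', ?_⟩
        simp [al]
    · intro h1 h2 q hq
      have hα' : 0 < ((n₀ + n₁ : ℕ) : ℝ) - c * ((a₀ + a₁ + m : ℕ) : ℝ) := by rw [hnew]; linarith
      rcases hq with hq | ⟨d, hdS, hq⟩ | hq
      · exact (ihI (μ - m) hμI hα).2 (by rw [hsub, hnew]; linarith) (by rw [hsub]; linarith) q hq
      · have hρd := mulc hc (hρm d)
        by_cases hd : d = 0
        · subst hd
          exact (ih0 (ρ 0) (hρ 0) hα'.le).2 (by linarith) (by linarith) q hq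
        · exact (ihc d hdS hd (ρ d) (hρ d) hα'.le).2 (by push_cast; linarith) (by linarith) q hq
      · rw [hq]
        rintro ⟨-, h3⟩
        simp [al] at h3

/-- the general induction for a base curve `v = 0` -/
theorem base1 {g : ι → MP} {a₀ n₀ a₁ n₁ : ℕ} {Λ : Set Pr} (hT : LT g a₀ n₀ a₁ n₁ Λ) (c : ℝ)
    (hc : 0 ≤ c) : ∀ μ : ℕ, OL1 g μ → 0 ≤ (n₁ : ℝ) - c * a₁ →
      ((c * μ ≤ (n₀ : ℝ) - c * a₀ → c * μ ≤ 1 → ∀ q ∈ Λ, NN c q) ∧
      (c * μ < (n₀ : ℝ) - c * a₀ → c * μ < 1 → ∀ q ∈ Λ, ¬ ZZ c q)) := by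
  induction hT with
  | unit g a₀ n₀ a₁ n₁ j hj =>
    intro μ hμ h0
    have hμ0 : 0 ≤ c * μ := mul_nonneg hc (Nat.cast_nonneg μ)
    refine ⟨fun h1 _ q hq => ?_, fun h1 _ q hq => ?_⟩
    · rw [Set.mem_singleton_iff] at hq
      subst hq
      exact ⟨hμ0.trans h1, h0⟩
    · rw [Set.mem_singleton_iff] at hq
      subst hq
      rintro ⟨h2, -⟩
      simp only [al] at h2
      linarith
  | curveV g a₀ n₀ m hm h k hg h0 h1 j hj =>
    intro μ hμ hα
    have hmμ := mulc hc ((ord_curve hg h0).2 hμ)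
    have hμ0 : 0 ≤ c * μ := mul_nonneg hc (Nat.cast_nonneg μ)
    refine ⟨fun h3 h2 q hq => ?_, fun _ h2 q hq => ?_⟩
    · rw [Set.mem_singleton_iff] at hq
      subst hq
      refine ⟨hμ0.trans h3, ?_⟩
      simp only [al, Nat.cast_one]
      linarith
    · rw [Set.mem_singleton_iff] at hq
      subst hq
      rintro ⟨-, h3⟩
      simp only [al, Nat.cast_one] at h3
      linarith
  | curveU g a₁ n₁ m hm h k hg h0 h1 j hj =>
    intro μ hμ hα
    have hmμ := mulc hc ((ord_curve hg h0).2 hμ)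
    refine ⟨fun h3 h2 q hq => ?_, fun h3 h2 q hq => ?_⟩
    · rw [Set.mem_singleton_iff] at hq
      subst hq
      refine ⟨hα, ?_⟩
      simp only [al, Nat.cast_one]
      linarith
    · rw [Set.mem_singleton_iff] at hq
      subst hq
      rintro ⟨-, h3⟩
      simp only [al, Nat.cast_one] at h3
      linarith
  | blowup g a₀ n₀ a₁ n₁ m hm gc gI hgc hgI S h0S hS Λc ΛI h0 hcc hI ih0 ihc ihI =>
    intro μ hμ hα
    obtain ⟨hmμ, hμ0⟩ := OL1_chart0 (hgc 0) hμ
    obtain ⟨ρ, ρI, hρ, hρI, hpair, hpairI⟩ := blow_facts g m gc gI hgc hgI S hS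
    have hρm : ∀ c, ρ c ≤ m := fun c => by have := hpairI c; omega
    have hρIm : ρI ≤ m := by have := hpairI 0; omega
    have hcm := mulc hc hmμ
    have hsub : c * ((μ - m : ℕ) : ℝ) = c * μ - c * m := by
      rw [Nat.cast_sub hmμ]; ring
    have hcm0 : 0 ≤ c * m := mul_nonneg hc (Nat.cast_nonneg m)
    have hnew : ((n₀ + n₁ : ℕ) : ℝ) - c * ((a₀ + a₁ + m : ℕ) : ℝ) =
        ((n₀ : ℝ) - c * a₀) + ((n₁ : ℝ) - c * a₁) - c * m := by
      push_cast; ring
    have hρI' := mulc hc hρIm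
    constructor
    · intro h1 h2 q hq
      have hα' : 0 ≤ ((n₀ + n₁ : ℕ) : ℝ) - c * ((a₀ + a₁ + m : ℕ) : ℝ) := by rw [hnew]; linarith
      rcases hq with hq | ⟨d, hdS, hq⟩ | hq
      · exact (ihI ρI hρI hα').1 (by linarith) (by linarith) q hq
      · by_cases hd : d = 0
        · subst hd
          exact (ih0 (μ - m) hμ0 hα).1 (by rw [hsub, hnew]; linarith) (by rw [hsub]; linarith) q hq
        · have hρd := mulc hc (hρm d)
          exact (base0 (hcc d hdS hd) c hc (ρ d) (hρ d) hα').1 (by push_cast; linarith)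
            (by linarith) q hq
      · rw [hq]
        refine ⟨hα', ?_⟩
        simp [al]
    · intro h1 h2 q hq
      have hα' : 0 < ((n₀ + n₁ : ℕ) : ℝ) - c * ((a₀ + a₁ + m : ℕ) : ℝ) := by rw [hnew]; linarith
      rcases hq with hq | ⟨d, hdS, hq⟩ | hq
      · exact (ihI ρI hρI hα'.le).2 (by linarith) (by linarith) q hq
      · by_cases hd : d = 0
        · subst hd
          exact (ih0 (μ - m) hμ0 hα).2 (by rw [hsub, hnew]; linarith) (by rw [hsub]; linarith) q hq
        · have hρd := mulc hc (hρm d)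
          exact (base0 (hcc d hdS hd) c hc (ρ d) (hρ d) hα'.le).2 (by push_cast; linarith)
            (by linarith) q hq
      · rw [hq]
        rintro ⟨-, h3⟩
        simp [al] at h3

/-- a divisor with a negative number -/
theorem neg_case {g : ι → MP} {a₀ n₀ a₁ n₁ : ℕ} {Λ : Set Pr} (hT : LT g a₀ n₀ a₁ n₁ Λ) (c : ℝ)
    (hc : 0 ≤ c) : (n₀ : ℝ) - c * a₀ ≤ 1 → (n₁ : ℝ) - c * a₁ ≤ 1 →
      ((n₀ : ℝ) - c * a₀ < 0 ∨ (n₁ : ℝ) - c * a₁ < 0) → ∀ q ∈ Λ, ¬ ZZ c q := by
  induction hT with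
  | unit g a₀ n₀ a₁ n₁ j hj =>
    rintro - - h q hq ⟨h1, h2⟩
    rw [Set.mem_singleton_iff] at hq
    subst hq
    simp only [al] at h1 h2
    rcases h with h | h <;> linarith
  | curveV g a₀ n₀ m hm h k hg h0 h1 j hj =>
    rintro - - h q hq ⟨h1, h2⟩
    rw [Set.mem_singleton_iff] at hq
    subst hq
    simp only [al] at h1 h2
    rcases h with h | h
    · linarith
    · norm_num at h
  | curveU g a₁ n₁ m hm h k hg h0 h1 j hj =>
    rintro - - h q hq ⟨h1, h2⟩
    rw [Set.mem_singleton_iff] at hq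
    subst hq
    simp only [al] at h1 h2
    rcases h with h | h
    · norm_num at h
    · linarith
  | blowup g a₀ n₀ a₁ n₁ m hm gc gI hgc hgI S h0S hS Λc ΛI h0 hcc hI ih0 ihc ihI =>
    intro h1 h2 h3 q hq
    obtain ⟨ρ, ρI, hρ, hρI, hpair, hpairI⟩ := blow_facts g m gc gI hgc hgI S hS
    have hρm : ∀ c, ρ c ≤ m := fun c => by have := hpairI c; omega
    have hρIm : ρI ≤ m := by have := hpairI 0; omega
    have hcm0 : 0 ≤ c * m := mul_nonneg hc (Nat.cast_nonneg m)
    have hnew : ((n₀ + n₁ : ℕ) : ℝ) - c * ((a₀ + a₁ + m : ℕ) : ℝ) =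
        ((n₀ : ℝ) - c * a₀) + ((n₁ : ℝ) - c * a₁) - c * m := by
      push_cast; ring
    have hle : ((n₀ + n₁ : ℕ) : ℝ) - c * ((a₀ + a₁ + m : ℕ) : ℝ) ≤ 1 := by
      rw [hnew]
      rcases h3 with h3 | h3 <;> linarith
    by_cases hneg : ((n₀ + n₁ : ℕ) : ℝ) - c * ((a₀ + a₁ + m : ℕ) : ℝ) < 0
    · rcases hq with hq | ⟨d, hdS, hq⟩ | hq
      · exact ihI h1 hle (Or.inr hneg) q hq
      · by_cases hd : d = 0
        · subst hd
          exact ih0 hle h2 (Or.inl hneg) q hq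
        · exact ihc d hdS hd hle (by norm_num) (Or.inl hneg) q hq
      · rw [hq]
        rintro ⟨-, h4⟩
        simp [al] at h4
    · push Not at hneg
      have hneg' := hneg
      rw [hnew] at hneg'
      have hρI' := mulc hc hρIm
      rcases hq with hq | ⟨d, hdS, hq⟩ | hq
      · rcases h3 with h3 | h3
        · exact ihI h1 hle (Or.inl h3) q hq
        · exact (base1 hI c hc ρI hρI hneg).2 (by linarith) (by linarith) q hq
      · have hρd := mulc hc (hρm d)
        by_cases hd : d = 0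
        · subst hd
          rcases h3 with h3 | h3
          · exact (base0 h0 c hc (ρ 0) (hρ 0) hneg).2 (by linarith) (by linarith) q hq
          · exact ih0 hle h2 (Or.inr h3) q hq
        · refine (base0 (hcc d hdS hd) c hc (ρ d) (hρ d) hneg).2 ?_ ?_ q hq
          · push_cast
            rcases h3 with h3 | h3 <;> linarith
          · rcases h3 with h3 | h3 <;> linarith
      · rw [hq]
        rintro ⟨-, h4⟩
        simp [al] at h4

/-- **Points at which two divisors with `n = c a` meet occur only if all the other divisors have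
`n ≥ c a`.** -/
theorem all_nonneg {g : ι → MP} {a₀ n₀ a₁ n₁ : ℕ} {Λ : Set Pr} (hT : LT g a₀ n₀ a₁ n₁ Λ) (c : ℝ)
    (hc : 0 ≤ c) : (n₀ : ℝ) - c * a₀ ≤ 1 → (n₁ : ℝ) - c * a₁ ≤ 1 → (∃ q ∈ Λ, ZZ c q) →
      ∀ q ∈ Λ, NN c q := by
  induction hT with
  | unit g a₀ n₀ a₁ n₁ j hj =>
    rintro - - ⟨q, hq, h1, h2⟩ q' hq'
    rw [Set.mem_singleton_iff] at hq hq'
    subst hq hq'
    exact ⟨h1.ge, h2.ge⟩
  | curveV g a₀ n₀ m hm h k hg h0 h1 j hj =>
    rintro - - ⟨q, hq, h1, h2⟩ q' hq'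
    rw [Set.mem_singleton_iff] at hq hq'
    subst hq hq'
    exact ⟨h1.ge, h2.ge⟩
  | curveU g a₁ n₁ m hm h k hg h0 h1 j hj =>
    rintro - - ⟨q, hq, h1, h2⟩ q' hq'
    rw [Set.mem_singleton_iff] at hq hq'
    subst hq hq'
    exact ⟨h1.ge, h2.ge⟩
  | blowup g a₀ n₀ a₁ n₁ m hm gc gI hgc hgI S h0S hS Λc ΛI h0 hcc hI ih0 ihc ihI =>
    intro h1 h2 hex
    have hfull : LT g a₀ n₀ a₁ n₁
        ({q | q ∈ ΛI ∨ (∃ c ∈ S, q ∈ Λc c) ∨ q = ((a₀ + a₁ + m, n₀ + n₁), (0, 1))}) :=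
      LT.blowup g a₀ n₀ a₁ n₁ m hm gc gI hgc hgI S h0S hS Λc ΛI h0 hcc hI
    obtain ⟨ρ, ρI, hρ, hρI, hpair, hpairI⟩ := blow_facts g m gc gI hgc hgI S hS
    have hρm : ∀ c, ρ c ≤ m := fun c => by have := hpairI c; omega
    have hρIm : ρI ≤ m := by have := hpairI 0; omega
    have hcm0 : 0 ≤ c * m := mul_nonneg hc (Nat.cast_nonneg m)
    have hnew : ((n₀ + n₁ : ℕ) : ℝ) - c * ((a₀ + a₁ + m : ℕ) : ℝ) =
        ((n₀ : ℝ) - c * a₀) + ((n₁ : ℝ) - c * a₁) - c * m := by
      push_cast; ring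
    set A : ℝ := ((n₀ + n₁ : ℕ) : ℝ) - c * ((a₀ + a₁ + m : ℕ) : ℝ) with hA
    have hα0 : 0 ≤ (n₀ : ℝ) - c * a₀ := by
      by_contra h
      push Not at h
      obtain ⟨q, hq, hz⟩ := hex
      exact neg_case hfull c hc h1 h2 (Or.inl h) q hq hz
    have hα1 : 0 ≤ (n₁ : ℝ) - c * a₁ := by
      by_contra h
      push Not at h
      obtain ⟨q, hq, hz⟩ := hex
      exact neg_case hfull c hc h1 h2 (Or.inr h) q hq hz
    obtain ⟨q, hq, hz⟩ := hex
    have hρI' := mulc hc hρIm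
    have hA1 : A ≤ 1 := by
      by_contra h
      push Not at h
      have hA0 : 0 ≤ A := by linarith
      have h' := h
      rw [hnew] at h'
      rcases hq with hq | ⟨d, hdS, hq⟩ | hq
      · exact (base1 hI c hc ρI hρI hA0).2 (by linarith) (by linarith) q hq hz
      · have hρd := mulc hc (hρm d)
        by_cases hd : d = 0
        · subst hd
          exact (base0 h0 c hc (ρ 0) (hρ 0) hA0).2 (by linarith) (by linarith) q hq hz
        · exact (base0 (hcc d hdS hd) c hc (ρ d) (hρ d) hA0).2 (by push_cast; linarith)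
            (by linarith) q hq hz
      · rw [hq] at hz
        have h4 := hz.2
        simp [al] at h4
    have hA0 : 0 ≤ A := by
      by_contra h
      push Not at h
      rcases hq with hq | ⟨d, hdS, hq⟩ | hq
      · exact neg_case hI c hc h1 hA1 (Or.inr h) q hq hz
      · by_cases hd : d = 0
        · subst hd
          exact neg_case h0 c hc hA1 h2 (Or.inl h) q hq hz
        · exact neg_case (hcc d hdS hd) c hc hA1 (by norm_num) (Or.inl h) q hq hz
      · rw [hq] at hz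
        have h4 := hz.2
        simp [al] at h4
    have hgen : NN c ((a₀ + a₁ + m, n₀ + n₁), (0, 1)) := by
      refine ⟨hA0, ?_⟩
      simp [al]
    have hA0' := hA0
    rw [hnew] at hA0'
    rcases hq with hq | ⟨d, hdS, hq⟩ | hq
    · -- the node is over the direction `u = 0`
      have hk : (n₀ : ℝ) - c * a₀ ≤ c * ρI := by
        by_contra h
        push Not at h
        exact (base1 hI c hc ρI hρI hA0).2 h (by linarith) q hq hz
      have hother : ∀ e, c * (ρ e : ℝ) ≤ (n₁ : ℝ) - c * a₁ := by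
        intro e
        have := mulc hc (hpairI e)
        push_cast at this
        linarith
      intro q' hq'
      rcases hq' with hq' | ⟨e, heS, hq'⟩ | hq'
      · exact ihI h1 hA1 ⟨q, hq, hz⟩ q' hq'
      · by_cases he : e = 0
        · subst he
          exact (base0 h0 c hc (ρ 0) (hρ 0) hA0).1 (hother 0) (by have := hother 0; linarith) q' hq'
        · exact (base0 (hcc e heS he) c hc (ρ e) (hρ e) hA0).1
            (by have := hother e; push_cast; linarith) (by have := hother e; linarith) q' hq'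
      · rw [hq']; exact hgen
    · by_cases hd : d = 0
      · subst hd
        have hk : (n₁ : ℝ) - c * a₁ ≤ c * ρ 0 := by
          by_contra h
          push Not at h
          exact (base0 h0 c hc (ρ 0) (hρ 0) hA0).2 h (by linarith) q hq hz
        have hother : ∀ e, e ≠ 0 → c * (ρ e : ℝ) ≤ (n₀ : ℝ) - c * a₀ := by
          intro e he
          have := mulc hc (hpair e 0 he)
          push_cast at this
          linarith
        have hotherI : c * (ρI : ℝ) ≤ (n₀ : ℝ) - c * a₀ := by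
          have := mulc hc (hpairI 0)
          push_cast at this
          linarith
        intro q' hq'
        rcases hq' with hq' | ⟨e, heS, hq'⟩ | hq'
        · exact (base1 hI c hc ρI hρI hA0).1 hotherI (by linarith) q' hq'
        · by_cases he : e = 0
          · subst he
            exact ih0 hA1 h2 ⟨q, hq, hz⟩ q' hq'
          · exact (base0 (hcc e heS he) c hc (ρ e) (hρ e) hA0).1
              (by have := hother e he; push_cast; linarith) (by have := hother e he; linarith) q' hq'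
        · rw [hq']; exact hgen
      · have hk : 1 ≤ c * ρ d := by
          by_contra h
          push Not at h
          exact (base0 (hcc d hdS hd) c hc (ρ d) (hρ d) hA0).2 (by push_cast; linarith) h q hq hz
        have hother : ∀ e, e ≠ d → c * (ρ e : ℝ) ≤
            ((n₀ : ℝ) - c * a₀) + ((n₁ : ℝ) - c * a₁) - 1 := by
          intro e he
          have := mulc hc (hpair e d he)
          push_cast at this
          linarith
        have hotherI : c * (ρI : ℝ) ≤ ((n₀ : ℝ) - c * a₀) + ((n₁ : ℝ) - c * a₁) - 1 := by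
          have := mulc hc (hpairI d)
          push_cast at this
          linarith
        intro q' hq'
        rcases hq' with hq' | ⟨e, heS, hq'⟩ | hq'
        · exact (base1 hI c hc ρI hρI hA0).1 (by linarith) (by linarith) q' hq'
        · by_cases he : e = 0
          · subst he
            have h5 := hother 0 (Ne.symm hd)
            exact (base0 h0 c hc (ρ 0) (hρ 0) hA0).1 (by linarith) (by linarith) q' hq'
          · by_cases hed : e = d
            · subst hed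
              exact ihc e heS he hA1 (by norm_num) ⟨q, hq, hz⟩ q' hq'
            · have h5 := hother e hed
              exact (base0 (hcc e heS he) c hc (ρ e) (hρ e) hA0).1
                (by push_cast; linarith) (by linarith) q' hq'
        · rw [hq']; exact hgen
    · rw [hq] at hz
      have h4 := hz.2
      simp [al] at h4

end Pool.Agent.Y230.PL
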