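import Pool.Agent.Y230.PL.Lower

set_option autoImplicit false
set_option linter.unusedSectionVars false
set_option linter.unusedVariables false

/-! # Double roots -/

namespace Pool.Agent.Y230.PL

open MeasureTheory Set Pool.Agent.W574.SM Metric Pool.Agent.Y230.AR

theorem box_int (G : (Fin 2 → ℂ) → ENNReal) (hG : Measurable G) (P : Fin 2 → ℂ) (r : ℝ)
    (hr : 0 < r) : ∫⁻ p in ball P r, G p =
      ∫⁻ x in ball (0 : ℂ) r, ∫⁻ y in ball (0 : ℂ) r, G ![P 0 + x, P 1 + y] := by
  rw [← lintegral_indicator measurableSet_ball]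
  have hm : Measurable ((ball P r).indicator G) := hG.indicator measurableSet_ball
  have hmp := (volume_preserving_finTwoArrow ℂ).symm
  rw [← hmp.lintegral_comp hm]
  have hm2 : Measurable fun q : ℂ × ℂ => (ball P r).indicator G
      ((MeasurableEquiv.finTwoArrow (α := ℂ)).symm q) := hm.comp hmp.measurable
  rw [Measure.volume_eq_prod, lintegral_prod _ hm2.aemeasurable]
  have h1 : ∀ x y : ℂ, (MeasurableEquiv.finTwoArrow (α := ℂ)).symm (x, y) = ![x, y] := by
    intro x y
    rfl
  simp only [h1]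
  have h2 : ∀ x y : ℂ, (ball P r).indicator G ![x, y] =
      (ball (P 0) r).indicator (fun x => (ball (P 1) r).indicator (fun y => G ![x, y]) y) x := by
    intro x y
    have h3 : (![x, y] : Fin 2 → ℂ) ∈ ball P r ↔ x ∈ ball (P 0) r ∧ y ∈ ball (P 1) r := by
      simp only [mem_ball, dist_eq_norm]
      have h4 : (![x, y] : Fin 2 → ℂ) - P = ![x - P 0, y - P 1] := by
        funext i; fin_cases i <;> simp
      rw [h4, vec_norm, max_lt_iff]
    by_cases hx : x ∈ ball (P 0) r
    · rw [indicator_of_mem hx]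
      by_cases hy : y ∈ ball (P 1) r
      · rw [indicator_of_mem hy, indicator_of_mem (h3.2 ⟨hx, hy⟩)]
      · rw [indicator_of_notMem hy, indicator_of_notMem (fun h => hy (h3.1 h).2)]
    · rw [indicator_of_notMem hx, indicator_of_notMem (fun h => hx (h3.1 h).1)]
  simp only [h2]
  have h5 : ∀ x : ℂ, ∫⁻ y, (ball (P 0) r).indicator
      (fun x => (ball (P 1) r).indicator (fun y => G ![x, y]) y) x =
      (ball (P 0) r).indicator (fun x => ∫⁻ y in ball (P 1) r, G ![x, y]) x := by
    intro x
    by_cases hx : x ∈ ball (P 0) r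
    · simp only [indicator_of_mem hx]
      rw [← lintegral_indicator measurableSet_ball]
    · simp only [indicator_of_notMem hx, lintegral_zero]
  simp only [h5]
  rw [lintegral_indicator measurableSet_ball, translate_ball]
  refine lintegral_congr fun x => ?_
  rw [translate_ball]

variable {ι : Type} [Fintype ι]

theorem eval_translate (P : Fin 2 → ℂ) (x y : ℂ) (q : MP) :
    MvPolynomial.eval ![x, y] (W574.SM.translate P q) = MvPolynomial.eval ![P 0 + x, P 1 + y] q := by
  induction q using MvPolynomial.induction_on with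
  | C a => rw [W574.SM.translate, MvPolynomial.aeval_C, MvPolynomial.eval_C]; exact MvPolynomial.eval_C a
  | add p q hp hq => rw [map_add, map_add, hp, hq, map_add]
  | mul_X p i hp =>
    rw [map_mul, map_mul, hp, map_mul, W574.SM.translate, MvPolynomial.aeval_X]
    have hi : i = 0 ∨ i = 1 := by omega
    rcases hi with rfl | rfl
    · simp [add_comm]
    · simp [add_comm]

theorem W_translate (f : ι → MP) (P : Fin 2 → ℂ) (s : ℝ) (x y : ℂ) :
    W (fun j => W574.SM.translate P (f j)) 0 1 0 1 s x y =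
      ENNReal.ofReal (Nf f ![P 0 + x, P 1 + y]) ^ s := by
  have hone : 2 * (((1 : ℕ) : ℝ) + ((0 : ℕ) : ℝ) * s - 1) = 0 := by push_cast; ring
  rw [W, hone, ENNReal.rpow_zero, ENNReal.rpow_zero, one_mul, one_mul]
  congr 2
  rw [nn, Nf]
  refine Finset.sum_congr rfl fun j _ => ?_
  rw [eval_translate]

/-- **Double roots from integrals.** -/
theorem mult_two (f : ι → MP) (b : Polynomial ℂ) (hb : IsFunctionalEq f b) (P : Fin 2 → ℂ)
    (s0 : ℝ) (hs0 : s0 < 0) (hUp : Up s0 (fun j => W574.SM.translate P (f j)) 0 1 0 1)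
    (hLo : Lo s0 (fun j => W574.SM.translate P (f j)) 0 1 0 1) :
    (Polynomial.X - Polynomial.C (s0 : ℂ)) ^ 2 ∣ b := by
  obtain ⟨ε, hε, hfin⟩ := hUp
  obtain ⟨Cst, hCst, hlow⟩ := hLo (ε / 4) (by positivity)
  have hNm : Measurable (Nf f) := (continuous_Nf f).measurable
  have hbox : ∀ s : ℝ, ∀ r > 0, ∫⁻ p in ball P r, ENNReal.ofReal (Nf f p) ^ s =
      ∫⁻ x in ball (0 : ℂ) r, ∫⁻ y in ball (0 : ℂ) r,
        W (fun j => W574.SM.translate P (f j)) 0 1 0 1 s x y := by
    intro s r hr
    rw [box_int (fun p => ENNReal.ofReal (Nf f p) ^ s) (by fun_prop) P r hr]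
    refine lintegral_congr fun x => lintegral_congr fun y => ?_
    rw [W_translate]
  set K : Set (Fin 2 → ℂ) := closedBall P (ε / 2) with hK
  have hKc : IsCompact K := isCompact_closedBall P _
  have hKb : K ⊆ ball P ε := closedBall_subset_ball (by linarith)
  have hKfin : ∀ s : ℝ, s0 < s → s < 0 → ∫⁻ p in K, ENNReal.ofReal (Nf f p) ^ s < ⊤ := by
    intro s hs hs'
    refine lt_of_le_of_lt (lintegral_mono_set hKb) ?_
    rw [hbox s ε hε]
    exact hfin s hs hs'
  have hpos : ∀ᵐ p ∂(volume.restrict K), 0 < Nf f p := by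
    have hs : s0 < s0 / 2 := by linarith
    have hs' : s0 / 2 < 0 := by linarith
    have h1 := ae_lt_top (f := fun p => ENNReal.ofReal (Nf f p) ^ (s0 / 2)) (by fun_prop)
      (hKfin _ hs hs').ne
    filter_upwards [h1] with p hp
    by_contra h
    have h2 : Nf f p = 0 := le_antisymm (not_lt.1 h) (Nf_nonneg f p)
    rw [h2, ENNReal.ofReal_zero, ENNReal.zero_rpow_of_neg hs'] at hp
    exact lt_irrefl _ hp
  have hconv : ∀ s : ℝ, ∀ᵐ p ∂(volume.restrict K),
      ENNReal.ofReal (Nf f p ^ s) = ENNReal.ofReal (Nf f p) ^ s := by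
    intro s
    filter_upwards [hpos] with p hp
    rw [ENNReal.ofReal_rpow_of_pos hp]
  have hI : ∀ s : ℝ, s0 < s → s < 0 → IntegrableOn (fun x => Nf f x ^ s) K := by
    intro s hs hs'
    refine ⟨(hNm.pow_const s).aestronglyMeasurable, ?_⟩
    rw [hasFiniteIntegral_iff_ofReal (Filter.Eventually.of_forall fun p =>
      Real.rpow_nonneg (Nf_nonneg f p) s)]
    rw [lintegral_congr_ae (hconv s)]
    exact hKfin s hs hs'
  let φ : ContDiffBump P := ⟨ε / 4, ε / 2, by positivity, by linarith⟩
  have hφ1 : ∀ p ∈ ball P (ε / 4), φ p = 1 := fun p hp =>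
    φ.one_of_mem_closedBall (ball_subset_closedBall hp)
  have hTest : Test K (fun x => ((φ x : ℝ) : ℂ)) := by
    refine ⟨?_, ?_⟩
    · exact Complex.ofRealCLM.contDiff.comp φ.contDiff
    · have h1 : tsupport φ = closedBall P (ε / 2) := φ.tsupport_eq
      rw [hK, ← h1]
      exact closure_mono fun x hx => by
        rw [Function.mem_support] at hx ⊢
        intro h0
        exact hx (by rw [h0]; simp)
  refine arch_mult hKc f b hb (fun x => φ x) hTest (fun x => φ.nonneg) s0 hs0 2 hpos hI Cst 1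
    hCst one_pos ?_
  intro s hs _ hs'
  have hp : 0 < s - s0 := sub_pos.2 hs
  have h1 := hlow s hs hs'
  rw [← hbox s (ε / 4) (by positivity)] at h1
  have hint : IntegrableOn (fun x => Nf f x ^ s * φ x) K := by
    obtain ⟨Bφ, hBφ⟩ := φ.hasCompactSupport.exists_bound_of_continuous φ.continuous
    refine Integrable.mul_bdd (c := Bφ) (hI s hs hs') φ.continuous.aestronglyMeasurable ?_
    exact Filter.Eventually.of_forall hBφ
  have h2 : ∫⁻ p in ball P (ε / 4), ENNReal.ofReal (Nf f p) ^ s ≤
      ENNReal.ofReal (∫ x in K, Nf f x ^ s * φ x) := by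
    rw [ofReal_integral_eq_lintegral_ofReal hint (Filter.Eventually.of_forall fun p =>
      mul_nonneg (Real.rpow_nonneg (Nf_nonneg f p) s) φ.nonneg)]
    have hsub : ball P (ε / 4) ⊆ K := fun p hp => by
      rw [hK, mem_closedBall]
      rw [mem_ball] at hp
      linarith
    calc _ = ∫⁻ p in ball P (ε / 4), ENNReal.ofReal (Nf f p ^ s * φ p) := by
          refine lintegral_congr_ae ?_
          have h3 := ae_mono (Measure.restrict_mono_set volume hsub) (hconv s)
          filter_upwards [h3, ae_restrict_mem measurableSet_ball] with p hp hpb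
          rw [hφ1 p hpb, mul_one, hp]
      _ ≤ _ := lintegral_mono_set hsub
  have h3 := h1.trans h2
  rw [ENNReal.ofReal_le_ofReal_iff'] at h3
  rcases h3 with h3 | h3
  · rw [div_le_iff₀ (by positivity)] at h3
    calc Cst ≤ _ := h3
      _ = _ := by ring
  · exfalso
    have : 0 < Cst / (s - s0) ^ 2 := by positivity
    linarith

/-- **Double roots at the nodes.** -/
theorem node_mult_two (f : ι → MP) (b : Polynomial ℂ) (hb : IsFunctionalEq f b) (P : Fin 2 → ℂ)
    (s0 : ℝ) (hs0 : s0 < 0) {Λ : Set Pr} (hT : LT (fun j => W574.SM.translate P (f j)) 0 1 0 1 Λ)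
    (hz : ∃ q ∈ Λ, ZZ (-s0) q) : (Polynomial.X - Polynomial.C (s0 : ℂ)) ^ 2 ∣ b := by
  have hnn := all_nonneg hT (-s0) (by linarith) (by simp) (by simp) hz
  exact mult_two f b hb P s0 hs0 (up_tree s0 hT le_rfl le_rfl hnn) (lo_tree s0 hT le_rfl le_rfl hz)

end Pool.Agent.Y230.PL
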