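import Pool.Agent.Y230.PL.Upper

set_option autoImplicit false
set_option linter.unusedSectionVars false
set_option linter.unusedVariables false

/-! # Integrability and blow-ups -/

namespace Pool.Agent.Y230.PL

open MeasureTheory Set Pool.Agent.W574.SM Metric

variable {ι : Type} [Fintype ι]

theorem ae_ne_zero (A : Set ℂ) : ∀ᵐ x : ℂ ∂(volume.restrict A), x ≠ 0 :=
  ae_restrict_of_ae (measure_eq_zero_iff_ae_notMem.1 (measure_singleton (0 : ℂ)))

theorem near_c (c : ℂ) (hc : c ≠ 0) (v : ℂ) (hv : ‖v‖ < ‖c‖ / 2) (r : ℝ) :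
    ENNReal.ofReal ‖c + v‖ ^ r ≤ max (ENNReal.ofReal (‖c‖ / 2) ^ r) (ENNReal.ofReal (3 / 2 * ‖c‖) ^ r) ∧
    min (ENNReal.ofReal (‖c‖ / 2) ^ r) (ENNReal.ofReal (3 / 2 * ‖c‖) ^ r) ≤
      ENNReal.ofReal ‖c + v‖ ^ r := by
  have hcp : 0 < ‖c‖ := norm_pos_iff.2 hc
  have h1 : ‖c‖ / 2 ≤ ‖c + v‖ := by
    have := norm_sub_le (c + v) v
    rw [add_sub_cancel_right] at this
    linarith
  have h2 : ‖c + v‖ ≤ 3 / 2 * ‖c‖ := by
    have := norm_add_le c v
    linarith
  have h1' := ENNReal.ofReal_le_ofReal h1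
  have h2' := ENNReal.ofReal_le_ofReal h2
  rcases le_total 0 r with hr | hr
  · exact ⟨(ENNReal.rpow_le_rpow h2' hr).trans (le_max_right _ _),
      (min_le_left _ _).trans (ENNReal.rpow_le_rpow h1' hr)⟩
  · exact ⟨(erpow_anti h1' hr).trans (le_max_left _ _),
      (min_le_right _ _).trans (erpow_anti h2' hr)⟩

theorem up_blow (s0 : ℝ) (g : ι → MP) (a₀ n₀ a₁ n₁ m : ℕ) (gc : ℂ → ι → MP) (gI : ι → MP)
    (hgc : ∀ c j, MvPolynomial.aeval (chart c) (g j) = MvPolynomial.X 0 ^ m * gc c j)
    (hgI : ∀ j, MvPolynomial.aeval chartI (g j) = MvPolynomial.X 1 ^ m * gI j)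
    (hc0 : Up s0 (gc 0) (a₀ + a₁ + m) (n₀ + n₁) a₁ n₁)
    (hc : ∀ c, c ≠ 0 → Up s0 (gc c) (a₀ + a₁ + m) (n₀ + n₁) 0 1)
    (hI : Up s0 gI a₀ n₀ (a₀ + a₁ + m) (n₀ + n₁)) : Up s0 g a₀ n₀ a₁ n₁ := by
  obtain ⟨εI, hεI, hIfin⟩ := hI
  set H : ℝ → ℂ → ℂ → ENNReal := fun s x w =>
    ENNReal.ofReal (‖x‖ ^ 2) * W g a₀ n₀ a₁ n₁ s x (x * w) with hH
  set P : Set ℂ → Prop := fun t => ∃ ε > 0, ∀ s : ℝ, s0 < s → s < 0 →
    ∫⁻ x in ball (0 : ℂ) ε, ∫⁻ w in t, H s x w < ⊤ with hP
  have hHm : ∀ s, Measurable fun p : ℂ × ℂ => H s p.1 p.2 := by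
    intro s
    have h1 := (measurable_W g a₀ n₀ a₁ n₁ s).comp
      (show Measurable fun p : ℂ × ℂ => (p.1, p.1 * p.2) by fun_prop)
    rw [hH]
    exact Measurable.mul (by fun_prop) h1
  have hK : P (closedBall 0 εI⁻¹) := by
    refine (isCompact_closedBall (0 : ℂ) εI⁻¹).induction_on ?_ ?_ ?_ ?_
    · exact ⟨1, one_pos, fun s _ _ => by simp⟩
    · rintro t t' htt ⟨ε, hε, h⟩
      refine ⟨ε, hε, fun s hs hs' => lt_of_le_of_lt ?_ (h s hs hs')⟩
      exact lintegral_mono fun x => lintegral_mono_set htt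
    · rintro t t' ⟨ε, hε, h⟩ ⟨ε', hε', h'⟩
      refine ⟨min ε ε', lt_min hε hε', fun s hs hs' => ?_⟩
      calc _ ≤ ∫⁻ x in ball (0 : ℂ) (min ε ε'), ((∫⁻ w in t, H s x w) + ∫⁻ w in t', H s x w) :=
            lintegral_mono fun x => lintegral_union_le _ _ _
        _ = (∫⁻ x in ball (0 : ℂ) (min ε ε'), ∫⁻ w in t, H s x w) +
              ∫⁻ x in ball (0 : ℂ) (min ε ε'), ∫⁻ w in t', H s x w :=
            lintegral_add_left (hHm s).lintegral_prod_right' _
        _ < ⊤ := by
            refine ENNReal.add_lt_top.2 ⟨?_, ?_⟩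
            · exact lt_of_le_of_lt (lintegral_mono_set (ball_subset_ball (min_le_left _ _)))
                (h s hs hs')
            · exact lt_of_le_of_lt (lintegral_mono_set (ball_subset_ball (min_le_right _ _)))
                (h' s hs hs')
    · intro c _
      by_cases hc1 : c = 0
      · subst hc1
        obtain ⟨ε, hε, h⟩ := hc0
        refine ⟨ball 0 ε, mem_nhdsWithin_of_mem_nhds (ball_mem_nhds 0 hε), ε, hε,
          fun s hs hs' => ?_⟩
        refine lt_of_le_of_lt (le_of_eq ?_) (h s hs hs')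
        refine lintegral_congr_ae ?_
        filter_upwards [ae_ne_zero (ball (0 : ℂ) ε)] with x hx
        refine lintegral_congr fun w => ?_
        rw [hH]
        simp only
        rw [← W_blow_0 g (gc 0) m (hgc 0) a₀ n₀ a₁ n₁ s x w hx, zero_add]
      · obtain ⟨ε, hε, h⟩ := hc c hc1
        have hcp : 0 < ‖c‖ := norm_pos_iff.2 hc1
        have hη : 0 < min ε (‖c‖ / 2) := lt_min hε (by positivity)
        refine ⟨ball c (min ε (‖c‖ / 2)), mem_nhdsWithin_of_mem_nhds (ball_mem_nhds c hη),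
          ε, hε, fun s hs hs' => ?_⟩
        set r : ℝ := 2 * ((n₁ : ℝ) + a₁ * s - 1) with hr
        set M := max (ENNReal.ofReal (‖c‖ / 2) ^ r) (ENNReal.ofReal (3 / 2 * ‖c‖) ^ r) with hM
        have hMt : M < ⊤ := by
          refine max_lt ?_ ?_
          · exact (ENNReal.rpow_ne_top_of_nonneg' (ENNReal.ofReal_pos.2 (by positivity))
              ENNReal.ofReal_ne_top).lt_top
          · exact (ENNReal.rpow_ne_top_of_nonneg' (ENNReal.ofReal_pos.2 (by positivity))
              ENNReal.ofReal_ne_top).lt_top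
        calc _ ≤ ∫⁻ x in ball (0 : ℂ) ε, M * ∫⁻ v in ball (0 : ℂ) ε,
              W (gc c) (a₀ + a₁ + m) (n₀ + n₁) 0 1 s x v := by
              refine lintegral_mono_ae ?_
              filter_upwards [ae_ne_zero (ball (0 : ℂ) ε)] with x hx
              rw [translate_ball, ← lintegral_const_mul' _ _ hMt.ne]
              refine (setLIntegral_mono' measurableSet_ball fun v hv => ?_).trans
                (lintegral_mono_set (ball_subset_ball (min_le_left _ _)))
              rw [hH]
              simp only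
              rw [W_blow_c g (gc c) m c (hgc c) a₀ n₀ a₁ n₁ s x v hx]
              refine mul_le_mul_left (near_c c hc1 v ?_ r).1 _
              rw [mem_ball_zero_iff] at hv
              exact lt_of_lt_of_le hv (min_le_right _ _)
          _ = M * ∫⁻ x in ball (0 : ℂ) ε, ∫⁻ v in ball (0 : ℂ) ε,
              W (gc c) (a₀ + a₁ + m) (n₀ + n₁) 0 1 s x v := lintegral_const_mul' _ _ hMt.ne
          _ < ⊤ := ENNReal.mul_lt_top hMt (h s hs hs')
  obtain ⟨εK, hεK, hKfin⟩ := hK
  refine ⟨min εK εI, lt_min hεK hεI, fun s hs hs' => ?_⟩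
  set ε := min εK εI with hε
  have hε0 : 0 < ε := lt_min hεK hεI
  set f : ℂ × ℂ → ENNReal := {p : ℂ × ℂ | ‖p.1‖ * εI⁻¹ < ‖p.2‖}.indicator
    (fun p => W g a₀ n₀ a₁ n₁ s p.1 p.2) with hf
  have hmset : MeasurableSet {p : ℂ × ℂ | ‖p.1‖ * εI⁻¹ < ‖p.2‖} :=
    measurableSet_lt (by fun_prop) (by fun_prop)
  have hfm : Measurable f := (measurable_W g a₀ n₀ a₁ n₁ s).indicator hmset
  calc ∫⁻ x in ball (0 : ℂ) ε, ∫⁻ y in ball (0 : ℂ) ε, W g a₀ n₀ a₁ n₁ s x y
      ≤ ∫⁻ x in ball (0 : ℂ) ε, ((∫⁻ w in closedBall (0 : ℂ) εI⁻¹, H s x w) +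
          ∫⁻ y in ball (0 : ℂ) ε, f (x, y)) := by
        refine lintegral_mono_ae ?_
        filter_upwards [ae_ne_zero (ball (0 : ℂ) ε)] with x hx
        have h1 : ∫⁻ w in closedBall (0 : ℂ) εI⁻¹, H s x w =
            ∫⁻ y in closedBall (0 : ℂ) (‖x‖ * εI⁻¹), W g a₀ n₀ a₁ n₁ s x y := by
          rw [← scale_closedBall x hx, scale x hx _ measurableSet_closedBall, hH,
            lintegral_const_mul' _ _ ENNReal.ofReal_ne_top]
        rw [h1, ← lintegral_indicator measurableSet_ball, ← lintegral_indicator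
          measurableSet_closedBall, ← lintegral_indicator measurableSet_ball,
          ← lintegral_add_left]
        · refine lintegral_mono fun y => ?_
          by_cases hy : y ∈ ball (0 : ℂ) ε
          · rw [indicator_of_mem hy, indicator_of_mem hy]
            by_cases hy2 : ‖x‖ * εI⁻¹ < ‖y‖
            · rw [hf, indicator_of_mem (show (x, y) ∈ {p : ℂ × ℂ | ‖p.1‖ * εI⁻¹ < ‖p.2‖} from hy2)]
              exact le_add_self
            · have hy3 : y ∈ closedBall (0 : ℂ) (‖x‖ * εI⁻¹) := by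
                rw [mem_closedBall_zero_iff]; exact not_lt.1 hy2
              rw [indicator_of_mem hy3]
              exact le_self_add
          · rw [indicator_of_notMem hy]
            exact bot_le
        · refine Measurable.indicator ?_ measurableSet_closedBall
          exact (measurable_W g a₀ n₀ a₁ n₁ s).comp (measurable_const.prodMk measurable_id)
    _ = (∫⁻ x in ball (0 : ℂ) ε, ∫⁻ w in closedBall (0 : ℂ) εI⁻¹, H s x w) +
          ∫⁻ x in ball (0 : ℂ) ε, ∫⁻ y in ball (0 : ℂ) ε, f (x, y) :=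
        lintegral_add_left (hHm s).lintegral_prod_right' _
    _ < ⊤ := by
        refine ENNReal.add_lt_top.2 ⟨?_, ?_⟩
        · exact lt_of_le_of_lt (lintegral_mono_set (ball_subset_ball (min_le_left _ _)))
            (hKfin s hs hs')
        · rw [lintegral_lintegral_swap (f := fun x y => f (x, y)) hfm.aemeasurable]
          calc ∫⁻ y in ball (0 : ℂ) ε, ∫⁻ x in ball (0 : ℂ) ε, f (x, y)
              ≤ ∫⁻ y in ball (0 : ℂ) ε, ∫⁻ w in ball (0 : ℂ) εI,
                  W gI a₀ n₀ (a₀ + a₁ + m) (n₀ + n₁) s w y := by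
                refine lintegral_mono_ae ?_
                filter_upwards [ae_ne_zero (ball (0 : ℂ) ε)] with y hy
                have h1 : ∫⁻ w in ball (0 : ℂ) εI, W gI a₀ n₀ (a₀ + a₁ + m) (n₀ + n₁) s w y =
                    ∫⁻ x in ball (0 : ℂ) (‖y‖ * εI), W g a₀ n₀ a₁ n₁ s x y := by
                  have h2 := scale_ball y hy 0 εI
                  rw [mul_zero] at h2
                  rw [← h2, scale y hy _ measurableSet_ball,
                    ← lintegral_const_mul' _ _ ENNReal.ofReal_ne_top]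
                  refine lintegral_congr fun w => ?_
                  rw [W_blow_I g gI m hgI a₀ n₀ a₁ n₁ s w y hy]
                rw [h1, ← lintegral_indicator measurableSet_ball,
                  ← lintegral_indicator measurableSet_ball]
                refine lintegral_mono fun x => ?_
                by_cases hx : x ∈ ball (0 : ℂ) ε
                · rw [indicator_of_mem hx]
                  by_cases hx2 : ‖x‖ * εI⁻¹ < ‖y‖
                  · rw [hf, indicator_of_mem
                      (show (x, y) ∈ {p : ℂ × ℂ | ‖p.1‖ * εI⁻¹ < ‖p.2‖} from hx2),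
                      indicator_of_mem]
                    rw [mem_ball_zero_iff]
                    rwa [← div_eq_mul_inv, div_lt_iff₀ hεI] at hx2
                  · rw [hf, indicator_of_notMem
                      (show (x, y) ∉ {p : ℂ × ℂ | ‖p.1‖ * εI⁻¹ < ‖p.2‖} from hx2)]
                    exact bot_le
                · rw [indicator_of_notMem hx]
                  exact bot_le
            _ = ∫⁻ w in ball (0 : ℂ) εI, ∫⁻ y in ball (0 : ℂ) ε,
                  W gI a₀ n₀ (a₀ + a₁ + m) (n₀ + n₁) s w y :=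
                (lintegral_lintegral_swap (measurable_W gI a₀ n₀ (a₀ + a₁ + m) (n₀ + n₁)
                  s).aemeasurable).symm
            _ ≤ ∫⁻ w in ball (0 : ℂ) εI, ∫⁻ y in ball (0 : ℂ) εI,
                  W gI a₀ n₀ (a₀ + a₁ + m) (n₀ + n₁) s w y :=
                lintegral_mono fun w => lintegral_mono_set (ball_subset_ball (min_le_right _ _))
            _ < ⊤ := hIfin s hs hs'

end Pool.Agent.Y230.PL
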