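import Pool.Agent.Y230.PL.UpBlow

set_option autoImplicit false
set_option linter.unusedSectionVars false
set_option linter.unusedVariables false

/-! # Integrability at the points of the tree -/

namespace Pool.Agent.Y230.PL

open MeasureTheory Set Pool.Agent.W574.SM Metric

variable {ι : Type} [Fintype ι]

theorem al_pos (s0 : ℝ) (a n : ℕ) (hn : 1 ≤ n) (h : 0 ≤ al (-s0) (a, n)) (s : ℝ) (hs : s0 < s) :
    0 < (n : ℝ) + a * s := by
  have h1 : (1 : ℝ) ≤ n := by exact_mod_cast hn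
  simp only [al] at h
  rcases Nat.eq_zero_or_pos a with ha | ha
  · subst ha
    push_cast
    linarith
  · have h2 : (0 : ℝ) < a := by exact_mod_cast ha
    have h3 : 0 < (a : ℝ) * (s - s0) := mul_pos h2 (by linarith)
    nlinarith

theorem up_tree (s0 : ℝ) {g : ι → MP} {a₀ n₀ a₁ n₁ : ℕ} {Λ : Set Pr}
    (hT : LT g a₀ n₀ a₁ n₁ Λ) : 1 ≤ n₀ → 1 ≤ n₁ → (∀ q ∈ Λ, NN (-s0) q) →
      Up s0 g a₀ n₀ a₁ n₁ := by
  induction hT with
  | unit g a₀ n₀ a₁ n₁ j hj =>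
    intro hn0 hn1 h
    have h1 := h _ rfl
    exact up_unit s0 g a₀ n₀ a₁ n₁ j hj (fun s hs _ => al_pos s0 a₀ n₀ hn0 h1.1 s hs)
      (fun s hs _ => al_pos s0 a₁ n₁ hn1 h1.2 s hs)
  | curveV g a₀ n₀ m hm h k hg h0 h1 j hj =>
    intro hn0 hn1 hN
    have h2 := hN _ rfl
    refine up_curveV s0 g a₀ n₀ m hm h k hg h0 h1 j hj
      (fun s hs _ => al_pos s0 a₀ n₀ hn0 h2.1 s hs) (fun s hs _ => ?_)
    have := al_pos s0 m 1 le_rfl h2.2 s hs
    simpa using this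
  | curveU g a₁ n₁ m hm h k hg h0 h1 j hj =>
    intro hn0 hn1 hN
    have h2 := hN _ rfl
    refine up_curveU s0 g a₁ n₁ m hm h k hg h0 h1 j hj
      (fun s hs _ => al_pos s0 a₁ n₁ hn1 h2.1 s hs) (fun s hs _ => ?_)
    have := al_pos s0 m 1 le_rfl h2.2 s hs
    simpa using this
  | blowup g a₀ n₀ a₁ n₁ m hm gc gI hgc hgI S h0S hS Λc ΛI h0 hcc hI ih0 ihc ihI =>
    intro hn0 hn1 hN
    have hnew := (hN ((a₀ + a₁ + m, n₀ + n₁), (0, 1)) (Or.inr (Or.inr rfl))).1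
    refine up_blow s0 g a₀ n₀ a₁ n₁ m gc gI hgc hgI ?_ ?_ ?_
    · exact ih0 (by omega) hn1 fun q hq => hN q (Or.inr (Or.inl ⟨0, h0S, hq⟩))
    · intro c hc
      by_cases hcS : c ∈ S
      · exact ihc c hcS hc (by omega) le_rfl fun q hq => hN q (Or.inr (Or.inl ⟨c, hcS, hq⟩))
      · obtain ⟨j, hj⟩ := hS c hcS
        exact up_unit s0 (gc c) _ _ 0 1 j hj
          (fun s hs _ => al_pos s0 _ _ (by omega) hnew s hs) (fun s _ _ => by simp)
    · exact ihI hn0 (by omega) fun q hq => hN q (Or.inl hq)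

end Pool.Agent.Y230.PL
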