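import Pool.Agent.Y230.PL.Curve

set_option autoImplicit false
set_option linter.unusedSectionVars false
set_option linter.unusedVariables false

/-! # Integrability near the points of the tree -/

namespace Pool.Agent.Y230.PL

open MeasureTheory Set Pool.Agent.W574.SM Metric

theorem erpow_anti {x y : ENNReal} (h : x ≤ y) {z : ℝ} (hz : z ≤ 0) : y ^ z ≤ x ^ z := by
  have h1 : x ^ (-z) ≤ y ^ (-z) := ENNReal.rpow_le_rpow h (by linarith)
  rw [ENNReal.rpow_neg, ENNReal.rpow_neg] at h1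
  exact ENNReal.inv_le_inv.1 h1

theorem exists_box {P : ℂ × ℂ → Prop} (h : ∀ᶠ p in nhds ((0, 0) : ℂ × ℂ), P p) :
    ∃ ε > 0, ∀ x ∈ ball (0 : ℂ) ε, ∀ y ∈ ball (0 : ℂ) ε, P (x, y) := by
  obtain ⟨ε, hε, h1⟩ := Metric.eventually_nhds_iff_ball.1 h
  refine ⟨ε, hε, fun x hx y hy => h1 _ ?_⟩
  rw [← ball_prod_same]
  exact ⟨hx, hy⟩

theorem disc_fin (r α : ℝ) (hr : 0 < r) (hα : 0 < α) :
    ∫⁻ z in ball (0 : ℂ) r, ENNReal.ofReal ‖z‖ ^ (2 * (α - 1)) < ⊤ := by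
  rw [disc_int r α hr hα]
  exact ENNReal.ofReal_lt_top

theorem box_prod (A B : Set ℂ) (p q : ℝ) (D : ENNReal) :
    ∫⁻ x in A, ∫⁻ y in B, ENNReal.ofReal ‖x‖ ^ p * ENNReal.ofReal ‖y‖ ^ q * D =
      (∫⁻ x in A, ENNReal.ofReal ‖x‖ ^ p) * (∫⁻ y in B, ENNReal.ofReal ‖y‖ ^ q) * D := by
  have h1 : ∀ x : ℂ, ∫⁻ y in B, ENNReal.ofReal ‖x‖ ^ p * ENNReal.ofReal ‖y‖ ^ q * D =
      ENNReal.ofReal ‖x‖ ^ p * ((∫⁻ y in B, ENNReal.ofReal ‖y‖ ^ q) * D) := by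
    intro x
    rw [← lintegral_mul_const _ (by fun_prop), ← lintegral_const_mul _ (by fun_prop)]
    exact lintegral_congr fun y => by ring
  simp only [h1]
  rw [lintegral_mul_const _ (by fun_prop)]
  ring

variable {ι : Type} [Fintype ι]

theorem nn_zero (g : ι → MP) (j : ι) (hj : MvPolynomial.constantCoeff (g j) ≠ 0) :
    0 < nn g 0 0 := by
  refine Finset.sum_pos' (fun j _ => by positivity) ⟨j, Finset.mem_univ j, ?_⟩
  rw [vec00, MvPolynomial.eval_zero]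
  positivity

theorem nn_box_low (g : ι → MP) (j : ι) (hj : MvPolynomial.constantCoeff (g j) ≠ 0) :
    ∃ d > 0, ∃ ε > 0, ∀ x ∈ ball (0 : ℂ) ε, ∀ y ∈ ball (0 : ℂ) ε, d ≤ nn g x y := by
  have h0 := nn_zero g j hj
  refine ⟨nn g 0 0 / 2, by positivity, ?_⟩
  have h1 : ∀ᶠ p : ℂ × ℂ in nhds (0, 0), nn g 0 0 / 2 < nn g p.1 p.2 :=
    (continuous_nn g).continuousAt.eventually (lt_mem_nhds (by simp; linarith))
  obtain ⟨ε, hε, h2⟩ := exists_box h1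
  exact ⟨ε, hε, fun x hx y hy => (h2 x hx y hy).le⟩

/-- integrability near the origin, uniformly in the exponent -/
def Up (s0 : ℝ) (g : ι → MP) (a₀ n₀ a₁ n₁ : ℕ) : Prop :=
  ∃ ε > 0, ∀ s : ℝ, s0 < s → s < 0 →
    ∫⁻ x in ball (0 : ℂ) ε, ∫⁻ y in ball (0 : ℂ) ε, W g a₀ n₀ a₁ n₁ s x y < ⊤

theorem up_unit (s0 : ℝ) (g : ι → MP) (a₀ n₀ a₁ n₁ : ℕ) (j : ι)
    (hj : MvPolynomial.constantCoeff (g j) ≠ 0)
    (h0 : ∀ s : ℝ, s0 < s → s < 0 → 0 < (n₀ : ℝ) + a₀ * s)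
    (h1 : ∀ s : ℝ, s0 < s → s < 0 → 0 < (n₁ : ℝ) + a₁ * s) : Up s0 g a₀ n₀ a₁ n₁ := by
  obtain ⟨d, hd, ε, hε, hlow⟩ := nn_box_low g j hj
  refine ⟨ε, hε, fun s hs hs' => ?_⟩
  have hle : ∫⁻ x in ball (0 : ℂ) ε, ∫⁻ y in ball (0 : ℂ) ε, W g a₀ n₀ a₁ n₁ s x y ≤
      ∫⁻ x in ball (0 : ℂ) ε, ∫⁻ y in ball (0 : ℂ) ε,
        ENNReal.ofReal ‖x‖ ^ (2 * ((n₀ : ℝ) + a₀ * s - 1)) *
        ENNReal.ofReal ‖y‖ ^ (2 * ((n₁ : ℝ) + a₁ * s - 1)) * ENNReal.ofReal d ^ s := by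
    refine setLIntegral_mono' measurableSet_ball fun x hx => ?_
    refine setLIntegral_mono' measurableSet_ball fun y hy => ?_
    exact mul_le_mul_right (erpow_anti (ENNReal.ofReal_le_ofReal (hlow x hx y hy)) hs'.le) _
  refine lt_of_le_of_lt hle ?_
  rw [box_prod]
  refine ENNReal.mul_lt_top (ENNReal.mul_lt_top (disc_fin ε _ hε (h0 s hs hs'))
    (disc_fin ε _ hε (h1 s hs hs'))) ?_
  exact (ENNReal.rpow_ne_top_of_nonneg' (ENNReal.ofReal_pos.2 hd) ENNReal.ofReal_ne_top).lt_top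

theorem nn_curve (g k : ι → MP) (h : MP) (m : ℕ) (hg : ∀ j, g j = h ^ m * k j) (x y : ℂ) :
    nn g x y = (‖MvPolynomial.eval ![x, y] h‖ ^ m) ^ 2 * nn k x y := by
  rw [nn, nn, Finset.mul_sum]
  refine Finset.sum_congr rfl fun j _ => ?_
  rw [hg, map_mul, map_pow, norm_mul, norm_pow, mul_pow]

theorem ofReal_nn_curve (g k : ι → MP) (h : MP) (m : ℕ) (hg : ∀ j, g j = h ^ m * k j) (x y : ℂ)
    (s : ℝ) : ENNReal.ofReal (nn g x y) ^ s =
      ENNReal.ofReal ‖MvPolynomial.eval ![x, y] h‖ ^ (2 * ((1 + m * s) - 1)) *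
        ENNReal.ofReal (nn k x y) ^ s := by
  rw [nn_curve g k h m hg, ENNReal.ofReal_mul (by positivity), ← pow_mul,
    ENNReal.ofReal_pow (norm_nonneg _), ENNReal.mul_rpow_of_ne_top
      (ENNReal.pow_ne_top ENNReal.ofReal_ne_top) ENNReal.ofReal_ne_top, ← ENNReal.rpow_natCast,
    ← ENNReal.rpow_mul]
  congr 2
  push_cast
  ring

theorem up_curveV (s0 : ℝ) (g : ι → MP) (a₀ n₀ m : ℕ) (hm : 1 ≤ m) (h : MP) (k : ι → MP)
    (hg : ∀ j, g j = h ^ m * k j) (hh0 : MvPolynomial.constantCoeff h = 0)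
    (hh1 : MvPolynomial.constantCoeff (MvPolynomial.pderiv 1 h) ≠ 0) (j : ι)
    (hj : MvPolynomial.constantCoeff (k j) ≠ 0)
    (h0 : ∀ s : ℝ, s0 < s → s < 0 → 0 < (n₀ : ℝ) + a₀ * s)
    (h1 : ∀ s : ℝ, s0 < s → s < 0 → 0 < 1 + (m : ℝ) * s) : Up s0 g a₀ n₀ 0 1 := by
  obtain ⟨d, hd, ε1, hε1, hlow⟩ := nn_box_low k j hj
  obtain ⟨ε2, hε2, hup⟩ := curve_up _ (curveData h hh0 hh1)
  refine ⟨min ε1 ε2, lt_min hε1 hε2, fun s hs hs' => ?_⟩
  obtain ⟨D, hD, hDle⟩ := hup (1 + m * s) (h1 s hs hs') (by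
    have : (1 : ℝ) ≤ m := by exact_mod_cast hm
    nlinarith)
  have hone : 2 * (((1 : ℕ) : ℝ) + ((0 : ℕ) : ℝ) * s - 1) = 0 := by push_cast; ring
  have hle : ∀ x ∈ ball (0 : ℂ) (min ε1 ε2), ∫⁻ y in ball (0 : ℂ) (min ε1 ε2),
      W g a₀ n₀ 0 1 s x y ≤ ENNReal.ofReal ‖x‖ ^ (2 * ((n₀ : ℝ) + a₀ * s - 1)) *
        (D * ENNReal.ofReal d ^ s) := by
    intro x hx
    have hx1 : x ∈ ball (0 : ℂ) ε1 := ball_subset_ball (min_le_left _ _) hx
    have hx2 : x ∈ ball (0 : ℂ) ε2 := ball_subset_ball (min_le_right _ _) hx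
    calc _ ≤ ∫⁻ y in ball (0 : ℂ) (min ε1 ε2),
          ENNReal.ofReal ‖x‖ ^ (2 * ((n₀ : ℝ) + a₀ * s - 1)) *
            (ENNReal.ofReal ‖MvPolynomial.eval ![x, y] h‖ ^ (2 * ((1 + m * s) - 1)) *
              ENNReal.ofReal d ^ s) := by
          refine setLIntegral_mono' measurableSet_ball fun y hy => ?_
          rw [W, hone, ENNReal.rpow_zero, mul_one, ofReal_nn_curve g k h m hg]
          refine mul_le_mul_right (mul_le_mul_right (erpow_anti (ENNReal.ofReal_le_ofReal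
            (hlow x hx1 y (ball_subset_ball (min_le_left _ _) hy))) hs'.le) _) _
      _ = ENNReal.ofReal ‖x‖ ^ (2 * ((n₀ : ℝ) + a₀ * s - 1)) *
            ((∫⁻ y in ball (0 : ℂ) (min ε1 ε2),
              ENNReal.ofReal ‖MvPolynomial.eval ![x, y] h‖ ^ (2 * ((1 + m * s) - 1))) *
              ENNReal.ofReal d ^ s) := by
          have hme : Measurable fun y : ℂ => MvPolynomial.eval ![x, y] h :=
            ((continuous_ev2 h).comp (Continuous.prodMk_right x)).measurable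
          rw [lintegral_const_mul _ (by fun_prop), lintegral_mul_const _ (by fun_prop)]
      _ ≤ _ := by
          refine mul_le_mul_right (mul_le_mul_left ?_ _) _
          exact (lintegral_mono_set (ball_subset_ball (min_le_right _ _))).trans (hDle x hx2)
  refine lt_of_le_of_lt (setLIntegral_mono' measurableSet_ball hle) ?_
  rw [lintegral_mul_const _ (by fun_prop)]
  refine ENNReal.mul_lt_top ?_ (ENNReal.mul_lt_top hD ?_)
  · exact disc_fin _ _ (lt_min hε1 hε2) (h0 s hs hs')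
  · exact (ENNReal.rpow_ne_top_of_nonneg' (ENNReal.ofReal_pos.2 hd) ENNReal.ofReal_ne_top).lt_top

theorem up_curveU (s0 : ℝ) (g : ι → MP) (a₁ n₁ m : ℕ) (hm : 1 ≤ m) (h : MP) (k : ι → MP)
    (hg : ∀ j, g j = h ^ m * k j) (hh0 : MvPolynomial.constantCoeff h = 0)
    (hh1 : MvPolynomial.constantCoeff (MvPolynomial.pderiv 0 h) ≠ 0) (j : ι)
    (hj : MvPolynomial.constantCoeff (k j) ≠ 0)
    (h0 : ∀ s : ℝ, s0 < s → s < 0 → 0 < (n₁ : ℝ) + a₁ * s)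
    (h1 : ∀ s : ℝ, s0 < s → s < 0 → 0 < 1 + (m : ℝ) * s) : Up s0 g 0 1 a₁ n₁ := by
  obtain ⟨d, hd, ε1, hε1, hlow⟩ := nn_box_low k j hj
  obtain ⟨ε2, hε2, hup⟩ := curve_up _ (curveData' h hh0 hh1)
  refine ⟨min ε1 ε2, lt_min hε1 hε2, fun s hs hs' => ?_⟩
  obtain ⟨D, hD, hDle⟩ := hup (1 + m * s) (h1 s hs hs') (by
    have : (1 : ℝ) ≤ m := by exact_mod_cast hm
    nlinarith)
  have hone : 2 * (((1 : ℕ) : ℝ) + ((0 : ℕ) : ℝ) * s - 1) = 0 := by push_cast; ring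
  rw [lintegral_lintegral_swap (measurable_W g 0 1 a₁ n₁ s).aemeasurable]
  have hle : ∀ y ∈ ball (0 : ℂ) (min ε1 ε2), ∫⁻ x in ball (0 : ℂ) (min ε1 ε2),
      W g 0 1 a₁ n₁ s x y ≤ ENNReal.ofReal ‖y‖ ^ (2 * ((n₁ : ℝ) + a₁ * s - 1)) *
        (D * ENNReal.ofReal d ^ s) := by
    intro y hy
    have hy1 : y ∈ ball (0 : ℂ) ε1 := ball_subset_ball (min_le_left _ _) hy
    have hy2 : y ∈ ball (0 : ℂ) ε2 := ball_subset_ball (min_le_right _ _) hy
    calc _ ≤ ∫⁻ x in ball (0 : ℂ) (min ε1 ε2),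
          ENNReal.ofReal ‖y‖ ^ (2 * ((n₁ : ℝ) + a₁ * s - 1)) *
            (ENNReal.ofReal ‖MvPolynomial.eval ![x, y] h‖ ^ (2 * ((1 + m * s) - 1)) *
              ENNReal.ofReal d ^ s) := by
          refine setLIntegral_mono' measurableSet_ball fun x hx => ?_
          rw [W, hone, ENNReal.rpow_zero, one_mul, ofReal_nn_curve g k h m hg]
          refine mul_le_mul_right (mul_le_mul_right (erpow_anti (ENNReal.ofReal_le_ofReal
            (hlow x (ball_subset_ball (min_le_left _ _) hx) y hy1)) hs'.le) _) _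
      _ = ENNReal.ofReal ‖y‖ ^ (2 * ((n₁ : ℝ) + a₁ * s - 1)) *
            ((∫⁻ x in ball (0 : ℂ) (min ε1 ε2),
              ENNReal.ofReal ‖MvPolynomial.eval ![x, y] h‖ ^ (2 * ((1 + m * s) - 1))) *
              ENNReal.ofReal d ^ s) := by
          have hme : Measurable fun x : ℂ => MvPolynomial.eval ![x, y] h :=
            ((continuous_ev2 h).comp (Continuous.prodMk_left y)).measurable
          rw [lintegral_const_mul _ (by fun_prop), lintegral_mul_const _ (by fun_prop)]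
      _ ≤ _ := by
          refine mul_le_mul_right (mul_le_mul_left ?_ _) _
          exact (lintegral_mono_set (ball_subset_ball (min_le_right _ _))).trans (hDle y hy2)
  refine lt_of_le_of_lt (setLIntegral_mono' measurableSet_ball hle) ?_
  rw [lintegral_mul_const _ (by fun_prop)]
  refine ENNReal.mul_lt_top ?_ (ENNReal.mul_lt_top hD ?_)
  · exact disc_fin _ _ (lt_min hε1 hε2) (h0 s hs hs')
  · exact (ENNReal.rpow_ne_top_of_nonneg' (ENNReal.ofReal_pos.2 hd) ENNReal.ofReal_ne_top).lt_top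

end Pool.Agent.Y230.PL
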