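import Pool.Agent.Y230.PL.Disc
import Pool.Agent.Y230.PL.Tree
import Pool.Agent.Y230.AR.Mult

set_option autoImplicit false
set_option linter.unusedSectionVars false
set_option linter.unusedVariables false

/-! # The integrands at the points of the tree -/

namespace Pool.Agent.Y230.PL

open MeasureTheory Set Pool.Agent.W574.SM

variable {ι : Type} [Fintype ι]

/-- `∑ |g_j| ^ 2` -/
noncomputable def nn (g : ι → MP) (x y : ℂ) : ℝ := ∑ j, ‖MvPolynomial.eval ![x, y] (g j)‖ ^ 2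

theorem nn_nonneg (g : ι → MP) (x y : ℂ) : 0 ≤ nn g x y :=
  Finset.sum_nonneg fun j _ => by positivity

theorem continuous_ev2 (q : MP) : Continuous fun p : ℂ × ℂ => MvPolynomial.eval ![p.1, p.2] q := by
  have h1 : Continuous fun p : ℂ × ℂ => (![p.1, p.2] : Fin 2 → ℂ) := by
    refine continuous_pi fun i => ?_
    fin_cases i
    · exact continuous_fst
    · exact continuous_snd
  exact (AR.continuous_ev q).comp h1

theorem continuous_nn (g : ι → MP) : Continuous fun p : ℂ × ℂ => nn g p.1 p.2 :=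
  continuous_finsetSum _ fun j _ => ((continuous_ev2 (g j)).norm.pow 2)

theorem eval_chart (c x v : ℂ) (q : MP) :
    MvPolynomial.eval ![x, v] (MvPolynomial.aeval (chart c) q) =
      MvPolynomial.eval ![x, x * (c + v)] q := by
  induction q using MvPolynomial.induction_on with
  | C a => rw [MvPolynomial.aeval_C, MvPolynomial.eval_C]; exact MvPolynomial.eval_C a
  | add p q hp hq => rw [map_add, map_add, hp, hq, map_add]
  | mul_X p i hp =>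
    rw [map_mul, map_mul, hp, map_mul]
    have hi : i = 0 ∨ i = 1 := by omega
    rcases hi with rfl | rfl
    · rw [chart_X0]; simp
    · rw [chart_X1]; simp [add_comm]

theorem eval_chartI (x y : ℂ) (q : MP) :
    MvPolynomial.eval ![x, y] (MvPolynomial.aeval chartI q) =
      MvPolynomial.eval ![y * x, y] q := by
  induction q using MvPolynomial.induction_on with
  | C a => rw [MvPolynomial.aeval_C, MvPolynomial.eval_C]; exact MvPolynomial.eval_C a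
  | add p q hp hq => rw [map_add, map_add, hp, hq, map_add]
  | mul_X p i hp =>
    rw [map_mul, map_mul, hp, map_mul]
    have hi : i = 0 ∨ i = 1 := by omega
    rcases hi with rfl | rfl
    · rw [chartI_X0]; simp; left; ring
    · rw [chartI_X1]; simp

theorem nn_chart (g gc : ι → MP) (m : ℕ) (c : ℂ)
    (hg : ∀ j, MvPolynomial.aeval (chart c) (g j) = MvPolynomial.X 0 ^ m * gc j) (x v : ℂ) :
    nn g x (x * (c + v)) = (‖x‖ ^ m) ^ 2 * nn gc x v := by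
  rw [nn, nn, Finset.mul_sum]
  refine Finset.sum_congr rfl fun j _ => ?_
  rw [← eval_chart, hg, map_mul, map_pow, MvPolynomial.eval_X, norm_mul, norm_pow, mul_pow]
  rfl

theorem nn_chartI (g gI : ι → MP) (m : ℕ)
    (hg : ∀ j, MvPolynomial.aeval chartI (g j) = MvPolynomial.X 1 ^ m * gI j) (x y : ℂ) :
    nn g (y * x) y = (‖y‖ ^ m) ^ 2 * nn gI x y := by
  rw [nn, nn, Finset.mul_sum]
  refine Finset.sum_congr rfl fun j _ => ?_
  rw [← eval_chartI, hg, map_mul, map_pow, MvPolynomial.eval_X, norm_mul, norm_pow, mul_pow]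
  rfl

/-- The integrand. -/
noncomputable def W (g : ι → MP) (a₀ n₀ a₁ n₁ : ℕ) (s : ℝ) (x y : ℂ) : ENNReal :=
  ENNReal.ofReal ‖x‖ ^ (2 * ((n₀ : ℝ) + a₀ * s - 1)) *
    ENNReal.ofReal ‖y‖ ^ (2 * ((n₁ : ℝ) + a₁ * s - 1)) * ENNReal.ofReal (nn g x y) ^ s

theorem measurable_W (g : ι → MP) (a₀ n₀ a₁ n₁ : ℕ) (s : ℝ) :
    Measurable fun p : ℂ × ℂ => W g a₀ n₀ a₁ n₁ s p.1 p.2 := by
  have h1 := (continuous_nn g).measurable
  unfold W
  fun_prop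

theorem W_mul (g : ι → MP) (a₀ n₀ a₁ n₁ : ℕ) (s : ℝ) (x y : ℂ) :
    W g a₀ n₀ a₁ n₁ s x y = ENNReal.ofReal ‖y‖ ^ (2 * ((n₁ : ℝ) + a₁ * s - 1)) *
      W g a₀ n₀ 0 1 s x y := by
  rw [W, W]
  have h : 2 * (((1 : ℕ) : ℝ) + ((0 : ℕ) : ℝ) * s - 1) = 0 := by push_cast; ring
  rw [h, ENNReal.rpow_zero]
  ring

theorem W_blow_c (g gc : ι → MP) (m : ℕ) (c : ℂ)
    (hg : ∀ j, MvPolynomial.aeval (chart c) (g j) = MvPolynomial.X 0 ^ m * gc j)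
    (a₀ n₀ a₁ n₁ : ℕ) (s : ℝ) (x v : ℂ) (hx : x ≠ 0) :
    ENNReal.ofReal (‖x‖ ^ 2) * W g a₀ n₀ a₁ n₁ s x (x * (c + v)) =
      ENNReal.ofReal ‖c + v‖ ^ (2 * ((n₁ : ℝ) + a₁ * s - 1)) *
        W gc (a₀ + a₁ + m) (n₀ + n₁) 0 1 s x v := by
  have hxp : 0 < ‖x‖ := norm_pos_iff.2 hx
  set Y := ENNReal.ofReal ‖x‖ with hY
  have hY0 : Y ≠ 0 := by rw [hY, Ne, ENNReal.ofReal_eq_zero, not_le]; exact hxp
  have hYt : Y ≠ ⊤ := ENNReal.ofReal_ne_top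
  have e1 : ENNReal.ofReal (‖x‖ ^ 2) = Y ^ (2 : ℝ) := by
    rw [ENNReal.ofReal_pow hxp.le]
    exact (ENNReal.rpow_natCast Y 2).symm
  have e2 : ENNReal.ofReal ‖x * (c + v)‖ = Y * ENNReal.ofReal ‖c + v‖ := by
    rw [norm_mul, ENNReal.ofReal_mul hxp.le]
  have e3 : ENNReal.ofReal (nn g x (x * (c + v))) = Y ^ ((2 * m : ℕ) : ℝ) * ENNReal.ofReal (nn gc x v) := by
    rw [nn_chart g gc m c hg, ENNReal.ofReal_mul (by positivity), ← pow_mul,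
      ENNReal.ofReal_pow hxp.le, ENNReal.rpow_natCast, mul_comm m 2]
  have hone : 2 * (((1 : ℕ) : ℝ) + ((0 : ℕ) : ℝ) * s - 1) = 0 := by push_cast; ring
  rw [W, W, e1, e2, e3, ENNReal.mul_rpow_of_ne_top hYt ENNReal.ofReal_ne_top,
    ENNReal.mul_rpow_of_ne_top (ENNReal.rpow_ne_top_of_nonneg (Nat.cast_nonneg _) hYt)
      ENNReal.ofReal_ne_top, ← ENNReal.rpow_mul, hone, ENNReal.rpow_zero]
  have e4 : Y ^ (2 * (((n₀ + n₁ : ℕ) : ℝ) + ((a₀ + a₁ + m : ℕ) : ℝ) * s - 1)) =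
      Y ^ (2 : ℝ) * Y ^ (2 * ((n₀ : ℝ) + a₀ * s - 1)) * Y ^ (2 * ((n₁ : ℝ) + a₁ * s - 1)) *
        Y ^ (((2 * m : ℕ) : ℝ) * s) := by
    rw [← ENNReal.rpow_add _ _ hY0 hYt, ← ENNReal.rpow_add _ _ hY0 hYt,
      ← ENNReal.rpow_add _ _ hY0 hYt]
    congr 1
    push_cast
    ring
  rw [e4]
  ring

theorem W_blow_0 (g gc : ι → MP) (m : ℕ)
    (hg : ∀ j, MvPolynomial.aeval (chart 0) (g j) = MvPolynomial.X 0 ^ m * gc j)
    (a₀ n₀ a₁ n₁ : ℕ) (s : ℝ) (x v : ℂ) (hx : x ≠ 0) :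
    ENNReal.ofReal (‖x‖ ^ 2) * W g a₀ n₀ a₁ n₁ s x (x * (0 + v)) =
      W gc (a₀ + a₁ + m) (n₀ + n₁) a₁ n₁ s x v := by
  rw [W_blow_c g gc m 0 hg a₀ n₀ a₁ n₁ s x v hx, W_mul gc (a₀ + a₁ + m) (n₀ + n₁) a₁ n₁, zero_add]

theorem W_blow_I (g gI : ι → MP) (m : ℕ)
    (hg : ∀ j, MvPolynomial.aeval chartI (g j) = MvPolynomial.X 1 ^ m * gI j)
    (a₀ n₀ a₁ n₁ : ℕ) (s : ℝ) (x y : ℂ) (hy : y ≠ 0) :
    ENNReal.ofReal (‖y‖ ^ 2) * W g a₀ n₀ a₁ n₁ s (y * x) y =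
      W gI a₀ n₀ (a₀ + a₁ + m) (n₀ + n₁) s x y := by
  have hxp : 0 < ‖y‖ := norm_pos_iff.2 hy
  set Y := ENNReal.ofReal ‖y‖ with hY
  have hY0 : Y ≠ 0 := by rw [hY, Ne, ENNReal.ofReal_eq_zero, not_le]; exact hxp
  have hYt : Y ≠ ⊤ := ENNReal.ofReal_ne_top
  have e1 : ENNReal.ofReal (‖y‖ ^ 2) = Y ^ (2 : ℝ) := by
    rw [ENNReal.ofReal_pow hxp.le]
    exact (ENNReal.rpow_natCast Y 2).symm
  have e2 : ENNReal.ofReal ‖y * x‖ = Y * ENNReal.ofReal ‖x‖ := by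
    rw [norm_mul, ENNReal.ofReal_mul hxp.le]
  have e3 : ENNReal.ofReal (nn g (y * x) y) = Y ^ ((2 * m : ℕ) : ℝ) * ENNReal.ofReal (nn gI x y) := by
    rw [nn_chartI g gI m hg, ENNReal.ofReal_mul (by positivity), ← pow_mul,
      ENNReal.ofReal_pow hxp.le, ENNReal.rpow_natCast, mul_comm m 2]
  rw [W, W, e1, e2, e3, ENNReal.mul_rpow_of_ne_top hYt ENNReal.ofReal_ne_top,
    ENNReal.mul_rpow_of_ne_top (ENNReal.rpow_ne_top_of_nonneg (Nat.cast_nonneg _) hYt)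
      ENNReal.ofReal_ne_top, ← ENNReal.rpow_mul]
  have e4 : Y ^ (2 * (((n₀ + n₁ : ℕ) : ℝ) + ((a₀ + a₁ + m : ℕ) : ℝ) * s - 1)) =
      Y ^ (2 : ℝ) * Y ^ (2 * ((n₀ : ℝ) + a₀ * s - 1)) * Y ^ (2 * ((n₁ : ℝ) + a₁ * s - 1)) *
        Y ^ (((2 * m : ℕ) : ℝ) * s) := by
    rw [← ENNReal.rpow_add _ _ hY0 hYt, ← ENNReal.rpow_add _ _ hY0 hYt,
      ← ENNReal.rpow_add _ _ hY0 hYt]
    congr 1
    push_cast
    ring
  rw [e4]
  ring

end Pool.Agent.Y230.PL
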