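import Pool.Agent.Y230.PL.Two
import Pool.Agent.W574.SM.PlaneMain

set_option autoImplicit false
set_option linter.unusedSectionVars false
set_option linter.unusedVariables false

/-! # The zeta function of an ideal of the plane, with multiplicities -/

namespace Pool.Agent.Y230.PL

open Polynomial Pool.Agent.W574.SM

/-- the linear polynomial `X - s0` as a rational function -/
noncomputable def tt (s0 : ℂ) : RatFunc ℂ := algebraMap ℂ[X] (RatFunc ℂ) (X - C s0)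

theorem tt_mem (s0 : ℂ) : tt s0 ∈ Reg s0 := ⟨X - C s0, 1, by simp, by simp [tt]⟩

theorem tt_fac (s0 : ℂ) (a n : ℕ) : tt s0 * fac a n ∈ Reg s0 := by
  by_cases h : (n : ℂ) + a * s0 = 0
  · by_cases ha : a = 0
    · subst ha
      have hn : n = 0 := by
        have : (n : ℂ) = 0 := by simpa using h
        exact_mod_cast this
      subst hn
      have : fac 0 0 = 0 := by simp [fac]
      rw [this, mul_zero]
      exact (Reg s0).zero_mem
    · have hac : (a : ℂ) ≠ 0 := Nat.cast_ne_zero.2 ha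
      have hp : C (n : ℂ) + C (a : ℂ) * X = C (a : ℂ) * (X - C s0) := by
        have : (n : ℂ) = -(a * s0) := by linear_combination h
        rw [this]
        simp only [map_neg, map_mul]
        ring
      have hX : tt s0 ≠ 0 := RatFunc.algebraMap_ne_zero (X_sub_C_ne_zero s0)
      have h1 : tt s0 * fac a n = algebraMap ℂ[X] (RatFunc ℂ) 1 / algebraMap ℂ[X] (RatFunc ℂ)
          (C (a : ℂ)) := by
        rw [fac_eq, hp, map_mul, map_one]
        change tt s0 * (1 / (algebraMap ℂ[X] (RatFunc ℂ) (C (a : ℂ)) * tt s0)) = _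
        have h2 : algebraMap ℂ[X] (RatFunc ℂ) (C (a : ℂ)) ≠ 0 :=
          RatFunc.algebraMap_ne_zero (C_ne_zero.2 hac)
        field_simp
      rw [h1]
      exact ⟨1, C (a : ℂ), by rw [eval_C]; exact hac, rfl⟩
  · exact (Reg s0).mul_mem (tt_mem s0) (fac_mem a n s0 h)

/-- both numbers vanish at `s0` -/
def ZC (s0 : ℂ) (q : Pr) : Prop :=
  (q.1.2 : ℂ) + q.1.1 * s0 = 0 ∧ (q.2.2 : ℂ) + q.2.1 * s0 = 0

theorem tt2 (s0 : ℂ) (q : Pr) : tt s0 ^ 2 * (fac q.1.1 q.1.2 * fac q.2.1 q.2.2) ∈ Reg s0 := by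
  have h : tt s0 ^ 2 * (fac q.1.1 q.1.2 * fac q.2.1 q.2.2) =
      (tt s0 * fac q.1.1 q.1.2) * (tt s0 * fac q.2.1 q.2.2) := by ring
  rw [h]
  exact (Reg s0).mul_mem (tt_fac s0 _ _) (tt_fac s0 _ _)

theorem tt1 (s0 : ℂ) (q : Pr) (hq : ¬ ZC s0 q) :
    tt s0 * (fac q.1.1 q.1.2 * fac q.2.1 q.2.2) ∈ Reg s0 := by
  by_cases h1 : (q.1.2 : ℂ) + q.1.1 * s0 = 0
  · have h2 : (q.2.2 : ℂ) + q.2.1 * s0 ≠ 0 := fun h => hq ⟨h1, h⟩
    rw [← mul_assoc]
    exact (Reg s0).mul_mem (tt_fac s0 _ _) (fac_mem _ _ s0 h2)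
  · have h : tt s0 * (fac q.1.1 q.1.2 * fac q.2.1 q.2.2) =
        fac q.1.1 q.1.2 * (tt s0 * fac q.2.1 q.2.2) := by ring
    rw [h]
    exact (Reg s0).mul_mem (fac_mem _ _ s0 h1) (tt_fac s0 _ _)

variable {ι : Type}

/-- the tree of a local zeta function -/
theorem exists_tree (s0 : ℂ) {g : ι → MP} {a₀ n₀ a₁ n₁ : ℕ} {Z : RatFunc ℂ}
    (h : LocalZeta g a₀ n₀ a₁ n₁ Z) : ∃ Λ : Set Pr, LT g a₀ n₀ a₁ n₁ Λ ∧
      tt s0 ^ 2 * Z ∈ Reg s0 ∧ ((∀ q ∈ Λ, ¬ ZC s0 q) → tt s0 * Z ∈ Reg s0) := by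
  induction h with
  | unit g a₀ n₀ a₁ n₁ j hj =>
    exact ⟨_, LT.unit g a₀ n₀ a₁ n₁ j hj, tt2 s0 ((a₀, n₀), (a₁, n₁)),
      fun h => tt1 s0 ((a₀, n₀), (a₁, n₁)) (h _ rfl)⟩
  | curveV g a₀ n₀ m hm h k hg h0 h1 j hj =>
    exact ⟨_, LT.curveV g a₀ n₀ m hm h k hg h0 h1 j hj, tt2 s0 ((a₀, n₀), (m, 1)),
      fun h => tt1 s0 ((a₀, n₀), (m, 1)) (h _ rfl)⟩
  | curveU g a₁ n₁ m hm h k hg h0 h1 j hj =>
    exact ⟨_, LT.curveU g a₁ n₁ m hm h k hg h0 h1 j hj, tt2 s0 ((a₁, n₁), (m, 1)),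
      fun h => tt1 s0 ((a₁, n₁), (m, 1)) (h _ rfl)⟩
  | blowup g a₀ n₀ a₁ n₁ m hm gc gI hgc hgI S h0S hS Zc ZI h0 hc hI ih0 ihc ihI =>
    classical
    have hall : ∀ c : ℂ, ∃ Λ : Set Pr, c ∈ S → ((c = 0 → LT (gc 0) (a₀ + a₁ + m) (n₀ + n₁) a₁ n₁ Λ) ∧
        (c ≠ 0 → LT (gc c) (a₀ + a₁ + m) (n₀ + n₁) 0 1 Λ) ∧
        tt s0 ^ 2 * Zc c ∈ Reg s0 ∧ ((∀ q ∈ Λ, ¬ ZC s0 q) → tt s0 * Zc c ∈ Reg s0)) := by
      intro c
      by_cases hcS : c ∈ S
      · by_cases hc0 : c = 0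
        · subst hc0
          obtain ⟨Λ, h1, h2, h3⟩ := ih0
          exact ⟨Λ, fun _ => ⟨fun _ => h1, fun h => absurd rfl h, h2, h3⟩⟩
        · obtain ⟨Λ, h1, h2, h3⟩ := ihc c hcS hc0
          exact ⟨Λ, fun _ => ⟨fun h => absurd h hc0, fun _ => h1, h2, h3⟩⟩
      · exact ⟨∅, fun h => absurd h hcS⟩
    choose Λc hΛc using hall
    obtain ⟨ΛI, hI1, hI2, hI3⟩ := ihI
    refine ⟨_, LT.blowup g a₀ n₀ a₁ n₁ m hm gc gI hgc hgI S h0S hS Λc ΛI
      ((hΛc 0 h0S).1 rfl) (fun c hcS hc0 => (hΛc c hcS).2.1 hc0) hI1, ?_, ?_⟩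
    · have e : tt s0 ^ 2 * (ZI + ∑ c ∈ S, Zc c + (1 - (S.card : RatFunc ℂ)) *
          fac (a₀ + a₁ + m) (n₀ + n₁)) = tt s0 ^ 2 * ZI + ∑ c ∈ S, tt s0 ^ 2 * Zc c +
          (1 - (S.card : RatFunc ℂ)) * (tt s0 * (tt s0 * fac (a₀ + a₁ + m) (n₀ + n₁))) := by
        rw [← Finset.mul_sum]
        ring
      rw [e]
      refine (Reg s0).add_mem ((Reg s0).add_mem hI2 (Subring.sum_mem _ fun c hcS =>
        (hΛc c hcS).2.2.1)) ((Reg s0).mul_mem ((Reg s0).sub_mem (Reg s0).one_mem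
          (natCast_mem _ _)) ((Reg s0).mul_mem (tt_mem s0) (tt_fac s0 _ _)))
    · intro hno
      have e : tt s0 * (ZI + ∑ c ∈ S, Zc c + (1 - (S.card : RatFunc ℂ)) *
          fac (a₀ + a₁ + m) (n₀ + n₁)) = tt s0 * ZI + ∑ c ∈ S, tt s0 * Zc c +
          (1 - (S.card : RatFunc ℂ)) * (tt s0 * fac (a₀ + a₁ + m) (n₀ + n₁)) := by
        rw [← Finset.mul_sum]
        ring
      rw [e]
      refine (Reg s0).add_mem ((Reg s0).add_mem (hI3 fun q hq => hno q (Or.inl hq))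
        (Subring.sum_mem _ fun c hcS => (hΛc c hcS).2.2.2
          fun q hq => hno q (Or.inr (Or.inl ⟨c, hcS, hq⟩))))
        ((Reg s0).mul_mem ((Reg s0).sub_mem (Reg s0).one_mem (natCast_mem _ _)) (tt_fac s0 _ _))

/-- the numbers `n` in the tree are positive -/
theorem leaf_pos {g : ι → MP} {a₀ n₀ a₁ n₁ : ℕ} {Λ : Set Pr} (hT : LT g a₀ n₀ a₁ n₁ Λ) :
    1 ≤ n₀ → 1 ≤ n₁ → ∀ q ∈ Λ, 1 ≤ q.1.2 ∧ 1 ≤ q.2.2 := by
  induction hT with
  | unit g a₀ n₀ a₁ n₁ j hj =>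
    intro h0 h1 q hq
    rw [Set.mem_singleton_iff] at hq
    subst hq
    exact ⟨h0, h1⟩
  | curveV g a₀ n₀ m hm h k hg h0 h1 j hj =>
    intro h2 h3 q hq
    rw [Set.mem_singleton_iff] at hq
    subst hq
    exact ⟨h2, le_rfl⟩
  | curveU g a₁ n₁ m hm h k hg h0 h1 j hj =>
    intro h2 h3 q hq
    rw [Set.mem_singleton_iff] at hq
    subst hq
    exact ⟨h3, le_rfl⟩
  | blowup g a₀ n₀ a₁ n₁ m hm gc gI hgc hgI S h0S hS Λc ΛI h0 hcc hI ih0 ihc ihI =>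
    intro h1 h2 q hq
    rcases hq with hq | ⟨c, hcS, hq⟩ | hq
    · exact ihI h1 (by omega) q hq
    · by_cases hc : c = 0
      · subst hc
        exact ih0 (by omega) h2 q hq
      · exact ihc c hcS hc (by omega) le_rfl q hq
    · subst hq
      exact ⟨by simp only; omega, le_rfl⟩

variable [Fintype ι]

/-- at a pair of divisors with a double zero there is a double root -/
theorem zc_root (f : ι → MP) (b : ℂ[X]) (hb : IsFunctionalEq f b) (P : Fin 2 → ℂ) (s0 : ℂ)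
    {Λ : Set Pr} (hT : LT (fun j => W574.SM.translate P (f j)) 0 1 0 1 Λ)
    (hz : ∃ q ∈ Λ, ZC s0 q) : (X - C s0) ^ 2 ∣ b := by
  obtain ⟨q, hq, hz0, hz1⟩ := hz
  obtain ⟨hn0, hn1⟩ := leaf_pos hT le_rfl le_rfl q hq
  have ha : q.1.1 ≠ 0 := by
    intro h
    rw [h, Nat.cast_zero, zero_mul, add_zero] at hz0
    exact Nat.cast_ne_zero.2 (by omega) hz0
  have hac : (q.1.1 : ℂ) ≠ 0 := Nat.cast_ne_zero.2 ha
  set σ : ℝ := -(q.1.2 : ℝ) / q.1.1 with hσ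
  have hs : s0 = (σ : ℂ) := by
    rw [hσ]
    push_cast
    rw [eq_div_iff hac]
    linear_combination hz0
  have hσ0 : σ < 0 := by
    rw [hσ]
    have h1 : (0 : ℝ) < q.1.2 := by exact_mod_cast hn0
    have h2 : (0 : ℝ) < q.1.1 := by exact_mod_cast Nat.pos_of_ne_zero ha
    exact div_neg_of_neg_of_pos (by linarith) h2
  have hre : ∀ a n : ℕ, (n : ℂ) + a * s0 = 0 → al (-σ) (a, n) = 0 := by
    intro a n h
    rw [hs] at h
    have h1 : ((n : ℝ) + a * σ) = 0 := by exact_mod_cast h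
    simp only [al]
    linarith
  rw [hs]
  exact node_mult_two f b hb P σ hσ0 hT ⟨q, hq, hre _ _ hz0, hre _ _ hz1⟩

theorem rm_le (s0 : ℂ) (k : ℕ) (Z : RatFunc ℂ) (h : tt s0 ^ k * Z ∈ Reg s0) :
    Z.denom.rootMultiplicity s0 ≤ k := by
  obtain ⟨p, q, hq, hpq⟩ := h
  have hX : tt s0 ≠ 0 := RatFunc.algebraMap_ne_zero (X_sub_C_ne_zero s0)
  have hq0 : q ≠ 0 := by
    rintro rfl
    simp at hq
  have hqa : algebraMap ℂ[X] (RatFunc ℂ) q ≠ 0 := RatFunc.algebraMap_ne_zero hq0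
  have hZ : Z = algebraMap ℂ[X] (RatFunc ℂ) p / algebraMap ℂ[X] (RatFunc ℂ) (q * (X - C s0) ^ k) := by
    rw [map_mul, map_pow]
    change Z = _ / (_ * tt s0 ^ k)
    rw [eq_div_iff (mul_ne_zero hqa (pow_ne_zero _ hX))]
    rw [eq_div_iff hqa] at hpq
    linear_combination hpq
  have hd : Z.denom ∣ q * (X - C s0) ^ k := by
    rw [hZ]
    exact RatFunc.denom_div_dvd p _
  have hne : q * (X - C s0) ^ k ≠ 0 := mul_ne_zero hq0 (pow_ne_zero _ (X_sub_C_ne_zero s0))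
  have h1 := rootMultiplicity_le_rootMultiplicity_of_dvd hne hd s0
  rw [rootMultiplicity_mul hne, rootMultiplicity_X_sub_C_pow,
    rootMultiplicity_eq_zero (show ¬ IsRoot q s0 from hq), zero_add] at h1
  exact h1

/-- **The stronger form for the ideals of `ℂ[x, y]`.** -/
theorem plane_q2 (f : ι → MP) (b : ℂ[X]) (hb : IsFunctionalEq f b) (Z : RatFunc ℂ)
    (hZ : PlaneZeta f Z) :
    ∃ P : ℂ[X], algebraMap ℂ[X] (RatFunc ℂ) b * Z = algebraMap ℂ[X] (RatFunc ℂ) P := by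
  classical
  by_cases hb0 : b = 0
  · exact ⟨0, by rw [hb0]; simp⟩
  have key : ∀ s0 : ℂ, Z.denom.rootMultiplicity s0 ≤ b.rootMultiplicity s0 := by
    intro s0
    have hZ' := hZ
    obtain ⟨χ₀, r, h, m, χ, S, ZP, hC, hP, rfl⟩ := hZ
    have hint : ∀ n : ℤ, (n : RatFunc ℂ) ∈ Reg s0 := fun n => intCast_mem _ n
    have htree : ∀ P : Fin 2 → ℂ, ∃ Λ : Set Pr, P ∈ S →
        (LT (fun j => W574.SM.translate P (f j)) 0 1 0 1 Λ ∧
        tt s0 ^ 2 * ZP P ∈ Reg s0 ∧ ((∀ q ∈ Λ, ¬ ZC s0 q) → tt s0 * ZP P ∈ Reg s0)) := by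
      intro P
      by_cases hPS : P ∈ S
      · obtain ⟨Λ, h1⟩ := exists_tree s0 (hP P hPS)
        exact ⟨Λ, fun _ => h1⟩
      · exact ⟨∅, fun h => absurd h hPS⟩
    choose Λ hΛ using htree
    by_cases hno : ∃ P ∈ S, ∃ q ∈ Λ P, ZC s0 q
    · obtain ⟨P, hPS, hz⟩ := hno
      have h2 := zc_root f b hb P s0 (hΛ P hPS).1 hz
      have h3 := (le_rootMultiplicity_iff hb0).2 h2
      refine le_trans ?_ h3
      apply rm_le
      have e : tt s0 ^ 2 * ((χ₀ : RatFunc ℂ) + ∑ i, (χ i : RatFunc ℂ) * fac (m i) 1 +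
          ∑ P ∈ S, ZP P) = tt s0 ^ 2 * (χ₀ : RatFunc ℂ) +
          ∑ i, (χ i : RatFunc ℂ) * (tt s0 * (tt s0 * fac (m i) 1)) +
          ∑ P ∈ S, tt s0 ^ 2 * ZP P := by
        rw [mul_add, mul_add, Finset.mul_sum, Finset.mul_sum]
        congr 2
        refine Finset.sum_congr rfl fun i _ => ?_
        ring
      rw [e]
      refine (Reg s0).add_mem ((Reg s0).add_mem ?_ ?_) ?_
      · exact (Reg s0).mul_mem ((Reg s0).pow_mem (tt_mem s0) 2) (hint _)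
      · exact Subring.sum_mem _ fun i _ => (Reg s0).mul_mem (hint _)
          ((Reg s0).mul_mem (tt_mem s0) (tt_fac s0 _ _))
      · exact Subring.sum_mem _ fun P hPS => (hΛ P hPS).2.1
    · push Not at hno
      set Z : RatFunc ℂ := (χ₀ : RatFunc ℂ) + ∑ i, (χ i : RatFunc ℂ) * fac (m i) 1 +
          ∑ P ∈ S, ZP P with hZdef
      have h1 : Z.denom.rootMultiplicity s0 ≤ 1 := by
        apply rm_le
        have e : tt s0 ^ 1 * Z = tt s0 * (χ₀ : RatFunc ℂ) +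
            ∑ i, (χ i : RatFunc ℂ) * (tt s0 * fac (m i) 1) +
            ∑ P ∈ S, tt s0 * ZP P := by
          rw [hZdef, pow_one, mul_add, mul_add, Finset.mul_sum, Finset.mul_sum]
          congr 2
          refine Finset.sum_congr rfl fun i _ => ?_
          ring
        rw [e]
        refine (Reg s0).add_mem ((Reg s0).add_mem ?_ ?_) ?_
        · exact (Reg s0).mul_mem (tt_mem s0) (hint _)
        · exact Subring.sum_mem _ fun i _ => (Reg s0).mul_mem (hint _) (tt_fac s0 _ _)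
        · exact Subring.sum_mem _ fun P hPS => (hΛ P hPS).2.2 (hno P hPS)
      by_cases h0 : Z.denom.eval s0 = 0
      · have h2 := plane_main f b hb Z hZ' s0 h0
        refine h1.trans ?_
        exact (rootMultiplicity_pos hb0).2 h2
      · rw [rootMultiplicity_eq_zero (show ¬ IsRoot Z.denom s0 from h0)]
        exact Nat.zero_le _
  have hdvd : Z.denom ∣ b := by
    have h1 := (IsAlgClosed.splits Z.denom).eq_prod_roots_of_monic Z.monic_denom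
    rw [h1, Multiset.prod_X_sub_C_dvd_iff_le_roots hb0, Multiset.le_iff_count]
    intro s0
    rw [count_roots, count_roots]
    exact key s0
  obtain ⟨q, hq⟩ := hdvd
  refine ⟨q * Z.num, ?_⟩
  have h2 : algebraMap ℂ[X] (RatFunc ℂ) Z.denom ≠ 0 :=
    RatFunc.algebraMap_ne_zero Z.denom_ne_zero
  conv_lhs => rw [← Z.num_div_denom]
  rw [hq, map_mul, map_mul]
  field_simp

end Pool.Agent.Y230.PL
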